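import Pool.Agent.Lib.MP_6b2d39_ag.Rel.Lead

/-!
The big step: the points of large multiplicity are moved to the origin along `(t ^ (d+1), t ^ (d+2))`;
in the limit their conditions say that the polynomial is supported on the set of leading exponents.
-/

open Polynomial

namespace Pool.Agent.Lib.MP_6b2d39_ag.Rel

theorem cond_zero {R : Type*} [CommRing R] (x y : R) (f : R[X][X]) :
    Cond (Finset.Icc 1 0) x y f := by
  intro a
  rw [colH_Icc_thick, Nat.zero_sub, pow_zero]
  exact one_dvd _

theorem entry_scale {K : Type*} [Field K] (d : ℕ) (u v : K) (a b s t : ℕ) :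
    (X : K[X]) ^ ((d + 1) * a + (d + 2) * b) *
      Transfer.entry (X ^ (d + 1) * C u) (X ^ (d + 2) * C v) a b s t =
      X ^ (wt d (s, t)) * C (Transfer.entry u v a b s t) := by
  unfold Transfer.entry wt
  rcases Nat.lt_or_ge s a with hs | hs
  · rw [Nat.choose_eq_zero_of_lt hs]
    simp
  rcases Nat.lt_or_ge t b with ht | ht
  · rw [Nat.choose_eq_zero_of_lt ht]
    simp
  obtain ⟨s', rfl⟩ := Nat.exists_eq_add_of_le hs
  obtain ⟨t', rfl⟩ := Nat.exists_eq_add_of_le ht
  rw [Nat.add_sub_cancel_left, Nat.add_sub_cancel_left]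
  simp only [C_mul, C_pow, mul_pow, ← pow_mul]
  have h1 : (X : K[X]) ^ ((d + 1) * (a + s') + (d + 2) * (b + t')) =
      X ^ ((d + 1) * a + (d + 2) * b) * (X ^ ((d + 1) * s') * X ^ ((d + 2) * t')) := by
    rw [← pow_add, ← pow_add]
    congr 1
    ring
  rw [h1]
  simp only [map_natCast]
  ring

theorem big_step {k : Type} [Field k] {ι : Type} [DecidableEq ι] (d : ℕ) (J : Finset ι)
    (m : ι → ℕ) (qx qy : ι → k)
    (H : GoodP k (leadSet d (fun i => if i ∈ J then m i else 0) qx qy)
      (fun i => if i ∈ J then 0 else m i)) : Good0 k (d + 1) m := by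
  obtain ⟨K, _, φ, x, y, -, -, -, H⟩ := H
  have hψinj : Function.Injective (algebraMap K[X] (FractionRing K[X])) :=
    IsFractionRing.injective _ _
  set ψ : K[X] →+* FractionRing K[X] := algebraMap K[X] (FractionRing K[X]) with hψ
  let px : ι → K[X] := fun i => if i ∈ J then X ^ (d + 1) * C (φ (qx i)) else C (x i)
  let py : ι → K[X] := fun i => if i ∈ J then X ^ (d + 2) * C (φ (qy i)) else C (y i)
  refine ⟨FractionRing K[X], inferInstance, (ψ.comp C).comp φ, fun i => ψ (px i),
    fun i => ψ (py i), ?_⟩
  intro f hf hc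
  by_contra hne
  obtain ⟨c, hc0, g, hg, hg0⟩ := exists_primitive (K := K) f hne
  have hgV : InV (d + 1) g := by
    apply InV.of_map hψinj
    rw [hg]
    exact hf.C_mul c
  have hgC : ∀ i, Cond (Finset.Icc 1 (m i)) (px i) (py i) g := by
    intro i
    apply Cond.of_map hψinj
    rw [hg]
    exact (hc i).C_mul c
  apply hg0
  apply H
  · intro i j hij
    by_contra hne0
    apply hij
    have hspc : ∀ a b, ((g.map (mapRingHom (sp K))).coeff a).coeff b =
        ((g.coeff a).coeff b).coeff 0 := by
      intro a b
      rw [coeff_map, coe_mapRingHom, coeff_map, coeff_zero_eq_eval_zero]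
      rfl
    rw [hspc] at hne0
    have hdeg : i + j ≤ d := by
      by_contra hcon
      apply hne0
      rw [hgV i j (by omega), coeff_zero]
    -- the coefficients over `K`
    let w0 : ℕ := wt d (i, j)
    let F : ℕ → ℕ → K := fun a b =>
      if wt d (a, b) ≤ w0 then ((g.coeff a).coeff b).coeff (w0 - wt d (a, b)) else 0
    have hF0 : F i j ≠ 0 := by
      simp only [F, w0, le_refl, if_true, Nat.sub_self]
      exact hne0
    have hFj : ∀ z ∈ J, ∀ a b, a + b < m z →
        ∑ t : Transfer.Ix d, Transfer.entry (φ (qx z)) (φ (qy z)) a b t.1.1 t.1.2 *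
          F t.1.1 t.1.2 = 0 := by
      intro z hz a b hab
      have h1 := hgC z a
      rw [colH_Icc_thick, X_sub_C_pow_dvd_iff, ← taylor_apply, X_pow_dvd_iff] at h1
      have h2 := h1 b (by omega)
      rw [← ofCoeffs_of_inV hgV, Transfer.coeff_taylor_ofCoeffs] at h2
      simp only [px, py, if_pos hz] at h2
      have h3 := congrArg (fun p => coeff (X ^ ((d + 1) * a + (d + 2) * b) * p) w0) h2
      simp only [mul_zero, coeff_zero] at h3
      rw [Finset.mul_sum, finsetSum_coeff] at h3
      rw [← h3]
      apply Finset.sum_congr rfl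
      intro t _
      rw [← mul_assoc, entry_scale, mul_assoc, coeff_X_pow_mul']
      simp only [F]
      split_ifs with h4
      · rw [coeff_C_mul]
      · rw [mul_zero]
    let _ : Algebra k K := φ.toAlgebra
    obtain ⟨l, hl⟩ : ∃ l : K →ₗ[k] k, l (F i j) ≠ 0 := by
      by_contra hcon
      push Not at hcon
      exact hF0 ((Module.forall_dual_apply_eq_zero_iff k (F i j)).1 hcon)
    rw [mem_leadSet]
    have hco : ∀ a b, a + b ≤ d → ((Transfer.ofCoeffs
        (fun t : Transfer.Ix d => l (F t.1.1 t.1.2))).coeff a).coeff b = l (F a b) := by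
      intro a b h
      exact Transfer.ofCoeffs_coeff_self _
        (⟨(⟨a, by omega⟩, ⟨b, by omega⟩), h⟩ : Transfer.Ix d)
    refine ⟨hdeg, Transfer.ofCoeffs (fun t : Transfer.Ix d => l (F t.1.1 t.1.2)),
      Transfer.inV_ofCoeffs _, ?_, ?_, ?_⟩
    · intro z
      by_cases hz : z ∈ J
      · simp only [if_pos hz]
        apply Transfer.cond_ofCoeffs
        intro a b hab
        have h1 := congrArg l (hFj z hz a b hab)
        rw [map_sum, map_zero] at h1
        rw [← h1]
        apply Finset.sum_congr rfl
        intro t _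
        rw [← Transfer.map_entry]
        rw [show φ (Transfer.entry (qx z) (qy z) a b t.1.1 t.1.2) * F t.1.1 t.1.2 =
          (Transfer.entry (qx z) (qy z) a b t.1.1 t.1.2) • F t.1.1 t.1.2 from
          (Algebra.smul_def _ _).symm, map_smul, smul_eq_mul]
      · simp only [if_neg hz]
        exact cond_zero _ _ _
    · rw [hco i j hdeg]
      exact hl
    · intro a b hab
      rcases Nat.lt_or_ge d (a + b) with h | h
      · exact Transfer.inV_ofCoeffs _ a b h
      · rw [hco a b h]
        have h1 : F a b = 0 := by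
          simp only [F]
          rw [if_neg]
          exact not_le.2 hab
        rw [h1, map_zero]
  · intro i
    by_cases hi : i ∈ J
    · simp only [if_pos hi]
      exact cond_zero _ _ _
    · simp only [if_neg hi]
      have h3 := (hgC i).map (sp K)
      simp only [px, py, if_neg hi] at h3
      have h4 : sp K (C (x i)) = x i := by simp
      have h5 : sp K (C (y i)) = y i := by simp
      rwa [h4, h5] at h3

end Pool.Agent.Lib.MP_6b2d39_ag.Rel
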