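import Pool.Agent.Lib.MP_6b2d39_ag.Rel.Defs
import Pool.Agent.Lib.MP_6b2d39_ag.Sparse

/-!
Task F: reflection of the inner variable.
-/

open Polynomial

namespace Pool.Agent.Lib.MP_6b2d39_ag.Rel

/-- `x ^ i y ^ j ↦ x ^ i y ^ (d - j)` -/
noncomputable def flip {R : Type*} [CommRing R] (d : ℕ) (f : R[X][X]) : R[X][X] :=
  f.sum (fun i p => monomial i (reflect d p))

theorem coeff_flip {R : Type*} [CommRing R] (d : ℕ) (f : R[X][X]) (i : ℕ) :
    (flip d f).coeff i = reflect d (f.coeff i) := by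
  unfold flip
  rw [Polynomial.sum_def, finsetSum_coeff]
  simp only [coeff_monomial]
  rw [Finset.sum_ite_eq']
  split_ifs with h
  · rfl
  · rw [mem_support_iff, not_not] at h
    rw [h, reflect_zero]

private theorem flip_taylor {R : Type*} [CommRing R] (d : ℕ) (x : R) (f : R[X][X]) (a : ℕ) :
    (taylor (C x) (flip d f)).coeff a = reflect d ((taylor (C x) f).coeff a) := by
  ext b
  rw [coeff_reflect,
    coeff_coeff_taylor_eq x (flip d f) a b (max (flip d f).natDegree f.natDegree + 1) (by omega),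
    coeff_coeff_taylor_eq x f a _ (max (flip d f).natDegree f.natDegree + 1) (by omega)]
  apply Finset.sum_congr rfl
  intro i _
  rw [coeff_flip, coeff_reflect]

private theorem flip_linear {L : Type*} [Field L] (y : L) (hy : y ≠ 0) :
    reflect 1 (X - C y) = C (-y) * (X - C y⁻¹) := by
  rw [reflect_sub, reflect_C, reflect_one_X, pow_one, mul_sub, ← C_mul, neg_mul,
    mul_inv_cancel₀ hy, C_neg, C_neg, C_1]
  ring

private theorem flip_pow {L : Type*} [Field L] (y : L) (hy : y ≠ 0) (e : ℕ) :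
    reflect e ((X - C y) ^ e) = C ((-y) ^ e) * (X - C y⁻¹) ^ e := by
  induction e with
  | zero => simp
  | succ e ih =>
    rw [pow_succ, reflect_mul _ _ (F := e) (G := 1), ih, flip_linear y hy, pow_succ, pow_succ, C_mul]
    · ring
    · rw [natDegree_pow, natDegree_X_sub_C, mul_one]
    · rw [natDegree_X_sub_C]

private theorem flip_dvd {L : Type*} [Field L] {y : L} (hy : y ≠ 0) {d e : ℕ} {c : L[X]}
    (hc : c.natDegree ≤ d) (h : (X - C y) ^ e ∣ c) : (X - C y⁻¹) ^ e ∣ reflect d c := by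
  obtain ⟨q, rfl⟩ := h
  by_cases hq : q = 0
  · rw [hq, mul_zero, reflect_zero]
    exact dvd_zero _
  have h1 : ((X - C y) ^ e * q).natDegree = e + q.natDegree := by
    rw [natDegree_mul (pow_ne_zero _ (X_sub_C_ne_zero y)) hq, natDegree_pow, natDegree_X_sub_C,
      mul_one]
  obtain ⟨g, rfl⟩ : ∃ g, d = e + g := ⟨d - e, by omega⟩
  rw [reflect_mul _ _ (F := e) (G := g), flip_pow y hy]
  · exact Dvd.dvd.mul_right (Dvd.dvd.mul_left dvd_rfl _) _
  · rw [natDegree_pow, natDegree_X_sub_C, mul_one]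
  · omega

theorem cond_flip {L : Type*} [Field L] {d m : ℕ} {x y : L} (hy : y ≠ 0) {f : L[X][X]}
    (hf : InV (d + 1) f) (h : Cond (Finset.Icc 1 m) x y f) :
    Cond (Finset.Icc 1 m) x y⁻¹ (flip d f) := by
  intro a
  rw [flip_taylor]
  refine flip_dvd hy ?_ (h a)
  rw [natDegree_le_iff_coeff_eq_zero]
  intro b hb
  rw [coeff_coeff_taylor_eq x f a b (f.natDegree + 1) (by omega)]
  apply Finset.sum_eq_zero
  intro i _
  rw [hf (i + a) b (by omega), mul_zero, zero_mul]

end Pool.Agent.Lib.MP_6b2d39_ag.Rel
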