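import Pool.Agent.Lib.MP_6b2d39_ag.Rel.Defs
import Pool.Agent.Lib.MP_6b2d39_ag.Sparse

/-!
Task K: linear relations between binomial coefficients.
-/

open Polynomial

namespace Pool.Agent.Lib.MP_6b2d39_ag.Rel

private theorem kappa_inj {K : Type*} [Field K] [CharZero K] (S : Finset ℕ) (p : S → K)
    (h : ∀ b < S.card, ∑ c : S, p c * ((c.1.choose b : ℕ) : K) = 0) : p = 0 := by
  classical
  set P : K[X] := ∑ c : S, monomial c.1 (p c) with hP
  have hcoeff : ∀ c : S, P.coeff c.1 = p c := by
    intro c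
    rw [hP, finsetSum_coeff, Finset.sum_eq_single c]
    · rw [coeff_monomial, if_pos rfl]
    · intro c' _ hne
      rw [coeff_monomial, if_neg]
      intro heq
      exact hne (Subtype.ext heq)
    · intro hc
      exact absurd (Finset.mem_univ _) hc
  have hsupp : ∀ b, b ∉ S → P.coeff b = 0 := by
    intro b hb
    rw [hP, finsetSum_coeff]
    apply Finset.sum_eq_zero
    intro c _
    rw [coeff_monomial, if_neg]
    rintro rfl
    exact hb c.2
  have hdvd : (X - C 1) ^ S.card ∣ P := by
    rw [X_sub_C_pow_dvd_iff, X_pow_dvd_iff]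
    intro b hb
    have h1 : (P.comp (X + C 1)).coeff b = (taylor 1 P).coeff b := by rw [taylor_apply]
    rw [h1, hP, map_sum, finsetSum_coeff]
    rw [← h b hb]
    apply Finset.sum_congr rfl
    intro c _
    rw [taylor_coeff, hasseDeriv_monomial, eval_monomial, one_pow, mul_one, mul_comm]
  have hP0 : P = 0 := sparse_zero S.card S P le_rfl hsupp hdvd
  funext c
  rw [← hcoeff c, hP0, coeff_zero]
  rfl

theorem exists_kappa {K : Type*} [Field K] [CharZero K] (S : Finset ℕ) (b : ℕ)
    (hb : S.card ≤ b) : ∃ κ : ℕ → K, ∀ c ∈ S,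
      ((c.choose b : ℕ) : K) = ∑ b' ∈ Finset.range S.card, κ b' * ((c.choose b' : ℕ) : K) := by
  classical
  -- the linear map of binomial coefficients
  let T : (S → K) →ₗ[K] (Fin S.card → K) :=
    LinearMap.pi fun b' => ∑ c : S, ((c.1.choose b'.1 : ℕ) : K) • LinearMap.proj c
  have hT : ∀ p b', T p b' = ∑ c : S, p c * ((c.1.choose b'.1 : ℕ) : K) := by
    intro p b'
    simp only [T, LinearMap.pi_apply, LinearMap.sum_apply, LinearMap.smul_apply,
      LinearMap.proj_apply, smul_eq_mul]
    exact Finset.sum_congr rfl fun c _ => mul_comm _ _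
  have hinj : LinearMap.ker T = ⊥ := by
    rw [Submodule.eq_bot_iff]
    intro p hp
    rw [LinearMap.mem_ker] at hp
    apply kappa_inj S p
    intro b' hb'
    have h1 := congrFun hp ⟨b', hb'⟩
    rw [hT] at h1
    exact h1
  obtain ⟨g, hg⟩ := T.exists_leftInverse_of_injective hinj
  let φ : (S → K) →ₗ[K] K := ∑ c : S, ((c.1.choose b : ℕ) : K) • LinearMap.proj c
  have hφ : ∀ c : S, φ (Pi.single c 1) = ((c.1.choose b : ℕ) : K) := by
    intro c
    simp only [φ, LinearMap.sum_apply, LinearMap.smul_apply, LinearMap.proj_apply, smul_eq_mul]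
    rw [Finset.sum_eq_single c]
    · rw [Pi.single_eq_same, mul_one]
    · intro c' _ hne
      rw [Pi.single_eq_of_ne hne, mul_zero]
    · intro hc
      exact absurd (Finset.mem_univ _) hc
  refine ⟨fun b' => if h : b' < S.card then φ (g (Pi.single ⟨b', h⟩ 1)) else 0, ?_⟩
  intro c hc
  have h1 : φ (g (T (Pi.single ⟨c, hc⟩ 1))) = ((c.choose b : ℕ) : K) := by
    have h2 : g (T (Pi.single ⟨c, hc⟩ 1)) = Pi.single ⟨c, hc⟩ 1 := by
      have := LinearMap.congr_fun hg (Pi.single ⟨c, hc⟩ 1)
      simpa using this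
    rw [h2, hφ ⟨c, hc⟩]
  rw [← h1]
  have h3 : T (Pi.single ⟨c, hc⟩ 1) = fun b' : Fin S.card => ((c.choose b'.1 : ℕ) : K) := by
    funext b'
    rw [hT, Finset.sum_eq_single ⟨c, hc⟩]
    · rw [Pi.single_eq_same, one_mul]
    · intro c' _ hne
      rw [Pi.single_eq_of_ne hne, zero_mul]
    · intro h
      exact absurd (Finset.mem_univ _) h
  have h4 : ∀ v : Fin S.card → K, φ (g v) = ∑ b' : Fin S.card, v b' * φ (g (Pi.single b' 1)) := by
    intro v
    have h5 : v = ∑ b' : Fin S.card, v b' • (Pi.single b' 1 : Fin S.card → K) := by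
      funext i
      rw [Finset.sum_apply, Finset.sum_eq_single i]
      · simp
      · intro j _ hne
        rw [Pi.smul_apply, Pi.single_eq_of_ne hne.symm, smul_zero]
      · intro h
        exact absurd (Finset.mem_univ _) h
    conv_lhs => rw [h5]
    rw [map_sum, map_sum]
    apply Finset.sum_congr rfl
    intro b' _
    rw [map_smul, map_smul, smul_eq_mul]
  rw [h3, h4, ← Fin.sum_univ_eq_sum_range
    (fun b' => (if h : b' < S.card then φ (g (Pi.single ⟨b', h⟩ 1)) else 0) *
      ((c.choose b' : ℕ) : K)) S.card]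
  apply Finset.sum_congr rfl
  intro b' _
  rw [dif_pos b'.2, mul_comm]

end Pool.Agent.Lib.MP_6b2d39_ag.Rel
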