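import Pool.Agent.Lib.MP_6b2d39_ag.Rel.Defs
import Pool.Agent.Lib.MP_6b2d39_ag.ThickStep
import Pool.Agent.Lib.MP_6b2d39_ag.Sparse
import Pool.Agent.Lib.MP_6b2d39_ag.Rel.Flip
import Pool.Agent.Lib.MP_6b2d39_ag.Rel.Kappa

/-!
The column step: the points are moved to the curve `x ^ β * y = 1`.
-/

open Polynomial

namespace Pool.Agent.Lib.MP_6b2d39_ag.Rel

/-- the substitution `x ↦ x, y ↦ x ^ β * (1 + lam * y)` -/
noncomputable def wC {R : Type*} [CommRing R] (β : ℕ) (lam : R) : R[X][X] :=
  C (1 + C lam * X) * X ^ β

theorem cond_phiC {R : Type*} [CommRing R] {m β : ℕ} {lam x y : R} {f : R[X][X]}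
    (h : Cond (Finset.Icc 1 m) x (x ^ β * (1 + lam * y)) f) :
    Cond (Finset.Icc 1 m) x y (phiS (wC β lam) f) := by
  rw [cond_iff] at h ⊢
  refine mem_pow_of_map (phiS (wC β lam)) _ _ ?_ h
  intro g hg
  obtain ⟨u, v, rfl⟩ := Ideal.mem_span_pair.1 hg
  rw [map_add, map_mul, map_mul]
  apply Ideal.add_mem
  · apply Ideal.mul_mem_left
    rw [map_sub (phiS _), phiS_X, phiS_C_C]
    exact Ideal.subset_span (by simp)
  · apply Ideal.mul_mem_left
    obtain ⟨z, hz⟩ := sub_dvd_pow_sub_pow (X : R[X][X]) (C (C x)) β
    have h1 : phiS (wC β lam) (C (X - C (x ^ β * (1 + lam * y)))) =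
        (C (1 + C lam * X) * z) * (X - C (C x)) + (C (C (x ^ β)) * C (C lam)) * C (X - C y) := by
      have h2 : (C (1 + C lam * X) * z) * (X - C (C x)) =
          C (1 + C lam * X) * ((X - C (C x)) * z) := by ring
      rw [h2, ← hz, C_sub, map_sub (phiS _), phiS_C_X, phiS_C_C, wC]
      simp only [C_add, C_mul, C_pow, C_sub, C_1]
      ring
    rw [h1]
    apply Ideal.add_mem
    · exact Ideal.mul_mem_left _ _ (Ideal.subset_span (by simp))
    · exact Ideal.mul_mem_left _ _ (Ideal.subset_span (by simp))

theorem phiC_eq {R : Type*} [CommRing R] (β : ℕ) (lam : R) (f : R[X][X]) :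
    phiS (wC β lam) f =
      (phiS (C X * X ^ β) f).map (compRingHom (1 + C lam * X)) := by
  have h : phiS (wC β lam) =
      (mapRingHom (compRingHom (1 + C lam * X))).comp (phiS (C X * X ^ β)) := by
    apply Polynomial.ringHom_ext'
    · apply Polynomial.ringHom_ext'
      · ext c
        simp [phiS_C_C]
      · simp [phiS_C_X, wC]
    · simp [phiS_X]
  rw [h]
  rfl

theorem coeff_shear {R : Type*} [CommRing R] (β : ℕ) (f : R[X][X]) (e j : ℕ) :
    ((phiS (C X * X ^ β) f).coeff e).coeff j =
      if β * j ≤ e then (f.coeff (e - β * j)).coeff j else 0 := by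
  induction f using Polynomial.induction_on' with
  | add f g hf hg =>
    rw [map_add, coeff_add, coeff_add, hf, hg, coeff_add, coeff_add]
    split_ifs <;> simp
  | monomial i p =>
    induction p using Polynomial.induction_on' with
    | add p q hp hq =>
      rw [map_add, map_add, coeff_add, coeff_add, hp, hq, coeff_add, coeff_add]
      split_ifs <;> simp
    | monomial j' c =>
      have h1 : phiS (C X * X ^ β) (monomial i (monomial j' c)) =
          monomial (i + β * j') (monomial j' c) := by
        rw [← C_mul_X_pow_eq_monomial, ← C_mul_X_pow_eq_monomial, map_mul, map_pow, phiS_X, C_mul,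
          map_mul, phiS_C_C, C_pow, map_pow, phiS_C_X, ← C_mul_X_pow_eq_monomial, mul_pow, C_mul,
          C_pow]
        ring
      rw [h1, coeff_monomial]
      by_cases h2 : j' = j
      · subst h2
        by_cases h3 : i + β * j' = e
        · have h6 : e - β * j' = i := by omega
          rw [if_pos h3, if_pos (by omega), h6]
          simp
        · rw [if_neg h3]
          split_ifs with h4
          · rw [coeff_monomial, if_neg (by omega)]
          · simp
      · have h5 : ∀ n m : ℕ, ((if n = m then (monomial j' c : R[X]) else 0)).coeff j = 0 := by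
          intro n m
          split_ifs
          · rw [coeff_monomial, if_neg h2]
          · simp
        rw [h5]
        split_ifs with h4
        · rw [coeff_monomial, h5]
        · rfl

theorem comp_coeff {R : Type*} [CommRing R] (lam : R) (S : Finset ℕ) (p : R[X])
    (hp : ∀ c, c ∉ S → p.coeff c = 0) (b : ℕ) :
    (p.comp (1 + C lam * X)).coeff b =
      lam ^ b * ∑ c ∈ S, p.coeff c * ((c.choose b : ℕ) : R) := by
  have h1 : p = ∑ c ∈ S, C (p.coeff c) * X ^ c := by
    ext n
    rw [finsetSum_coeff]
    by_cases hn : n ∈ S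
    · rw [Finset.sum_eq_single n]
      · simp
      · intro c _ hc
        rw [coeff_C_mul, coeff_X_pow, if_neg (Ne.symm hc), mul_zero]
      · exact fun h => absurd hn h
    · rw [hp n hn, Finset.sum_eq_zero]
      intro c hc
      rw [coeff_C_mul, coeff_X_pow, if_neg, mul_zero]
      rintro rfl
      exact hn hc
  have h2 : ∀ c : ℕ, (((1 : R[X]) + C lam * X) ^ c).coeff b = lam ^ b * ((c.choose b : ℕ) : R) := by
    intro c
    have h3 : ((1 : R[X]) + C lam * X) ^ c = ((1 + X) ^ c : R[X]).comp (C lam * X) := by
      simp [pow_comp, add_comp]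
    rw [h3, comp_C_mul_X_coeff, coeff_one_add_X_pow, mul_comm]
  conv_lhs => rw [h1]
  rw [sum_comp, finsetSum_coeff, Finset.mul_sum]
  apply Finset.sum_congr rfl
  intro c _
  rw [mul_comp, C_comp, pow_comp, X_comp, coeff_C_mul, h2]
  ring


theorem comp_injective {L : Type*} [Field L] {lam : L} (h : lam ≠ 0) {p : L[X]}
    (hp : p.comp (1 + C lam * X) = 0) : p = 0 := by
  have h1 : ((p.comp (1 + C lam * X)).comp (C lam⁻¹ * (X - 1))) = p := by
    rw [comp_assoc]
    have h2 : (1 + C lam * X : L[X]).comp (C lam⁻¹ * (X - 1)) = X := by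
      simp only [add_comp, one_comp, mul_comp, C_comp, X_comp]
      rw [← mul_assoc, ← C_mul, mul_inv_cancel₀ h]
      simp
    rw [h2, comp_X]
  rw [← h1, hp, zero_comp]

/-- exponents of `y` in the chord number `e` -/
def chY (d β : ℕ) (P : Finset (ℕ × ℕ)) (e : ℕ) : Finset ℕ :=
  (P.filter (fun p => p.1 + β * (d - p.2) = e)).image (fun p => d - p.2)

theorem card_chY_le {d β : ℕ} {P : Finset (ℕ × ℕ)} {e b : ℕ} (h : e ∉ rowsP d β P b) :
    (chY d β P e).card ≤ b := by
  refine Finset.card_image_le.trans ?_
  by_contra hcon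
  rw [not_le] at hcon
  apply h
  unfold rowsP
  rw [Finset.mem_filter]
  refine ⟨?_, hcon⟩
  obtain ⟨p, hp⟩ := Finset.card_pos.1 (lt_of_le_of_lt (Nat.zero_le _) hcon)
  rw [Finset.mem_filter] at hp
  exact Finset.mem_image.2 ⟨p, hp.1, hp.2⟩

theorem shear_support {L : Type*} [CommRing L] {d β : ℕ} {P : Finset (ℕ × ℕ)} (hP : P ⊆ Tri d)
    {f : L[X][X]} (hf : SuppP P f) (e c : ℕ) (hc : c ∉ chY d β P e) :
    ((phiS (C X * X ^ β) (flip d f)).coeff e).coeff c = 0 := by
  rw [coeff_shear]
  split_ifs with h1
  · rw [coeff_flip, coeff_reflect]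
    apply hf
    intro hmem
    apply hc
    rcases Nat.lt_or_ge d c with h2 | h2
    · rw [revAt_eq_self_of_lt h2] at hmem
      have := mem_Tri.1 (hP hmem)
      simp only at this
      omega
    · rw [revAt_le h2] at hmem
      unfold chY
      rw [Finset.mem_image]
      have h3 : d - (d - c) = c := by omega
      refine ⟨_, Finset.mem_filter.2 ⟨hmem, ?_⟩, ?_⟩
      · simp only [h3]
        omega
      · simp only [h3]
  · rfl

theorem phiC_ne_zero {L : Type*} [Field L] {d β : ℕ} {P : Finset (ℕ × ℕ)} (hP : P ⊆ Tri d)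
    {lam : L} (hl : lam ≠ 0) {f : L[X][X]} (hf : SuppP P f)
    (h0 : phiS (wC β lam) (flip d f) = 0) : f = 0 := by
  rw [phiC_eq] at h0
  have h1 : ∀ e, (phiS (C X * X ^ β) (flip d f)).coeff e = 0 := by
    intro e
    apply comp_injective hl
    have := congrArg (fun g => g.coeff e) h0
    simpa [coeff_map] using this
  ext i j
  rw [coeff_zero, coeff_zero]
  by_cases hij : (i, j) ∈ P
  · have h2 := mem_Tri.1 (hP hij)
    simp only at h2
    have h3 := coeff_shear β (flip d f) (i + β * (d - j)) (d - j)
    rw [h1, coeff_zero, if_pos (Nat.le_add_left _ _), Nat.add_sub_cancel, coeff_flip, coeff_reflect,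
      revAt_le (Nat.sub_le _ _)] at h3
    have h4 : d - (d - j) = j := by omega
    rw [h4] at h3
    exact h3.symm
  · exact hf i j hij

theorem column_step {k : Type} [Field k] [CharZero k] {ι : Type} {d β : ℕ} (P : Finset (ℕ × ℕ))
    (hP : P ⊆ Tri d) (m : ι → ℕ) (H : GoodN k (rowsP d β P) m) : GoodP k P m := by
  obtain ⟨K, _, φ, x, y, hx, hx0, hy0, H⟩ := H
  have hchar : CharZero K := charZero_of_injective_ringHom φ.injective
  have hψinj : Function.Injective (algebraMap K[X] (FractionRing K[X])) :=
    IsFractionRing.injective _ _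
  have hCinj : Function.Injective (C : K →+* K[X]) := C_injective
  set ψ : K[X] →+* FractionRing K[X] := algebraMap K[X] (FractionRing K[X]) with hψ
  have ht0 : ψ (tt K) ≠ 0 := by
    intro h0
    exact X_ne_zero (hψinj (by rw [h0, map_zero]))
  set Y : ι → K[X] := fun i => C (x i) ^ β * (1 + tt K * C (y i)) with hY
  have hY0 : ∀ i, ψ (Y i) ≠ 0 := by
    intro i h0
    have h1 : Y i = 0 := hψinj (by rw [h0, map_zero])
    rcases mul_eq_zero.1 h1 with h2 | h2
    · exact pow_ne_zero β (C_ne_zero.2 (hx0 i)) h2
    · have h3 := congrArg (fun p => eval 0 p) h2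
      simp at h3
  refine ⟨FractionRing K[X], inferInstance, (ψ.comp C).comp φ, fun i => ψ (C (x i)),
    fun i => (ψ (Y i))⁻¹, ?_, ?_, ?_, ?_⟩
  · intro i j hij
    exact hx (hCinj (hψinj hij))
  · intro i h0
    change ψ (C (x i)) = 0 at h0
    exact hx0 i (hCinj (hψinj (by rw [h0, map_zero, map_zero])))
  · intro i
    exact inv_ne_zero (hY0 i)
  · intro f hf hc
    by_contra hne
    set F := phiS (wC β (ψ (tt K))) (flip d f) with hF
    have hF0 : F ≠ 0 := fun h0 => hne (phiC_ne_zero hP ht0 hf h0)
    have hInV : InV (d + 1) f := by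
      intro a b hab
      apply hf
      intro hmem
      have := mem_Tri.1 (hP hmem)
      simp only at this
      omega
    have hFc : ∀ i, Cond (Finset.Icc 1 (m i)) (ψ (C (x i))) (ψ (C (y i))) F := by
      intro i
      apply cond_phiC
      have h1 := cond_flip (inv_ne_zero (hY0 i)) hInV (hc i)
      rw [inv_inv] at h1
      have h2 : ψ (Y i) = ψ (C (x i)) ^ β * (1 + ψ (tt K) * ψ (C (y i))) := by
        rw [hY, map_mul, map_pow, map_add, map_mul, map_one]
      rwa [h2] at h1
    obtain ⟨c, hc0, g, hg, hg0⟩ := exists_primitive (K := K) F hF0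
    apply hg0
    apply H
    · -- the support
      intro e b hb
      have hcard := card_chY_le hb
      obtain ⟨κ, hκ⟩ := exists_kappa (K := K) (chY d β P e) b hcard
      set S := chY d β P e with hS
      have hsup := shear_support (β := β) hP hf e
      have hcoef : ∀ b, (F.coeff e).coeff b = ψ (tt K) ^ b *
          ∑ c ∈ S, ((phiS (C X * X ^ β) (flip d f)).coeff e).coeff c *
            ((c.choose b : ℕ) : FractionRing K[X]) := by
        intro b
        rw [hF, phiC_eq, coeff_map, coe_compRingHom_apply]
        exact comp_coeff _ S _ hsup b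
      have hrel : (F.coeff e).coeff b = ∑ b' ∈ Finset.range S.card,
          ψ (C (κ b') * tt K ^ (b - b')) * (F.coeff e).coeff b' := by
        rw [hcoef b]
        have h1 : ∑ c ∈ S, ((phiS (C X * X ^ β) (flip d f)).coeff e).coeff c *
            ((c.choose b : ℕ) : FractionRing K[X]) = ∑ b' ∈ Finset.range S.card,
            ψ (C (κ b')) * ∑ c ∈ S, ((phiS (C X * X ^ β) (flip d f)).coeff e).coeff c *
            ((c.choose b' : ℕ) : FractionRing K[X]) := by
          simp_rw [Finset.mul_sum]
          rw [Finset.sum_comm]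
          apply Finset.sum_congr rfl
          intro c hc
          have h2 := congrArg (fun z => ψ (C z)) (hκ c hc)
          simp only [map_natCast, map_sum, map_mul] at h2
          rw [h2, Finset.mul_sum]
          apply Finset.sum_congr rfl
          intro b' _
          ring
        rw [h1, Finset.mul_sum]
        apply Finset.sum_congr rfl
        intro b' hb'
        rw [Finset.mem_range] at hb'
        rw [hcoef b', map_mul, map_pow]
        have h3 : ψ (tt K) ^ b = ψ (tt K) ^ (b - b') * ψ (tt K) ^ b' := by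
          rw [← pow_add]
          congr 1
          omega
        rw [h3]
        ring
      have hgc : ∀ e b, ψ ((g.coeff e).coeff b) = c * (F.coeff e).coeff b := by
        intro e b
        have h1 := congrArg (fun q => (q.coeff e).coeff b) hg
        simp only [coeff_map, coe_mapRingHom, coeff_C_mul] at h1
        exact h1
      have hgr : (g.coeff e).coeff b = ∑ b' ∈ Finset.range S.card,
          (C (κ b') * tt K ^ (b - b')) * (g.coeff e).coeff b' := by
        apply hψinj
        change ψ _ = ψ _
        rw [hgc, hrel, Finset.mul_sum, map_sum]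
        apply Finset.sum_congr rfl
        intro b' _
        rw [map_mul ψ (C (κ b') * tt K ^ (b - b')), hgc]
        ring
      rw [coeff_map, coe_mapRingHom, coeff_map, hgr, map_sum]
      apply Finset.sum_eq_zero
      intro b' hb'
      rw [Finset.mem_range] at hb'
      rw [map_mul, map_mul, map_pow]
      have h1 : sp K (tt K) = 0 := by simp
      rw [h1, zero_pow (by omega), mul_zero, zero_mul]
    · intro i
      have h2 : Cond (Finset.Icc 1 (m i)) (C (x i)) (C (y i)) g := by
        apply Cond.of_map hψinj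
        rw [hg]
        exact (hFc i).C_mul c
      have h3 := h2.map (sp K)
      have h4 : sp K (C (x i)) = x i := by simp
      have h5 : sp K (C (y i)) = y i := by simp
      rwa [h4, h5] at h3

end Pool.Agent.Lib.MP_6b2d39_ag.Rel
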