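import Pool.Agent.Lib.MP_6b2d39_ag.Core

/-!
The greedy arrangement with two different constants.
-/

open Finset

namespace Pool.Agent.Lib.MP_6b2d39_ag.Rel

/-- the greedy arrangement, with different constants in the two hypotheses on the row sizes -/
theorem core2 {n M B A A1 : ℕ} (hM : 1 ≤ M) (hB : 2 * M + 2 ≤ B) (hA : 9 * M ≤ A + 1) (μ : ℕ → ℕ)
    (hanti : Antitone μ) (hμ : ∀ p, μ p ≤ M) (s : ℕ → ℕ)
    (h1 : ∀ b < M, s b = s (b + 1) + A1) (h2 : ∀ b, b + 3 ≤ B → s (b + 1) + A ≤ s b)
    (h3 : s (B - 1) + (M - 1) ≤ s (B - 2))
    (hs : ∑ b ∈ Finset.range B, s b = ∑ p ∈ Finset.range n, (μ p + 1).choose 2) :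
    ∃ t i : ℕ → ℕ, (∀ p < n, t p < B ∧ i p ≤ t p) ∧
      ∀ b < B, ∑ p ∈ Finset.range n, (μ p - rk (t p) (i p) b) = s b := by
  -- `s` is decreasing
  have hs1 : ∀ r, r + 1 < B → s (r + 1) ≤ s r := by
    intro r hr
    rcases Nat.lt_or_ge (r + 2) B with h4 | h4
    · have := h2 r (by omega)
      omega
    · have h5 : r = B - 2 := by omega
      have h6 : r + 1 = B - 1 := by omega
      rw [h6, h5]
      omega
  have hs2 : ∀ e r, r + e < B → s (r + e) ≤ s r := by
    intro e
    induction e with
    | zero => intro r _; exact le_rfl
    | succ e ih =>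
      intro r hr
      have h4 := ih r (by omega)
      have h5 := hs1 (r + e) (by omega)
      rw [← add_assoc]
      omega
  have key : ∀ e b, b + e + 1 = B → ∃ kk t i, GInv n M B μ s b kk t i := by
    intro e
    induction e with
    | zero =>
      intro b hb
      refine ⟨fun _ => 0, fun _ => 0, fun _ => 0, rfl, ?_, Nat.zero_le _, ?_, ?_, ?_, ?_, ?_, ?_,
        ?_, ?_⟩
      · intro r hr hrB; omega
      · intro p; exact ⟨by omega, le_rfl⟩
      · intro r hr hrB; omega
      · intro p _; exact ⟨rfl, rfl⟩
      · intro r hr hrB; omega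
      · intro r hr hrB; omega
      · intro r hr hrB; omega
      · intro r hr hrM; omega
      · intro r hr hrB; omega
    | succ e ih =>
      intro b hb
      obtain ⟨kk, t, i, h⟩ := ih (b + 1) (by omega)
      have hsup := h.supply hμ (by omega) (by omega) (fun r hr => by
        have := hs2 (b + 1 - r) r (by omega)
        rwa [Nat.add_sub_cancel' hr] at this) hs
      set cur := ∑ p ∈ range n, (μ p - rk (t p) (i p) (b + 1)) with hcur
      -- the missing amount is nonnegative (and large)
      have hcases : (b + 1 + 3 ≤ B → (μ (kk (b + 1)) ≤ b + 1 → cur + 8 * M ≤ s (b + 1)) ∧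
          (b + 1 + 1 ≤ μ (kk (b + 1)) → cur + (b + 1) ≤ s (b + 1))) ∧ cur ≤ s (b + 1) := by
        rcases Nat.lt_or_ge (b + 1 + 1) B with h4 | h4
        · rcases Nat.lt_or_ge (b + 1 + 2) B with h5 | h5
          · -- generic
            have h6 : μ (kk (b + 1)) ≤ b + 1 → cur + 8 * M ≤ s (b + 1) := by
              intro h7
              have h8 := h.direct hanti h4 h7
              have h9 := h2 (b + 1) (by omega)
              have h10 : min (b + 1 + 1) M ≤ M := min_le_right _ _
              omega
            have h7 : b + 1 + 1 ≤ μ (kk (b + 1)) → cur + (b + 1) ≤ s (b + 1) := by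
              intro h8
              exact h.main hanti hμ hB (by omega) h8 h1 hs
            refine ⟨fun _ => ⟨h6, h7⟩, ?_⟩
            rcases Nat.lt_or_ge (b + 1) (μ (kk (b + 1))) with h8 | h8
            · have := h7 h8
              omega
            · have := h6 h8
              omega
          · refine ⟨fun h6 => by omega, ?_⟩
            have h7 : μ (kk (b + 1)) ≤ b + 1 := by
              have := hμ (kk (b + 1))
              omega
            have h8 := h.direct hanti h4 h7
            have h10 : min (b + 1 + 1) M ≤ M := min_le_right _ _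
            have h11 : B - 1 = b + 1 + 1 := by omega
            have h12 : B - 2 = b + 1 := by omega
            rw [h11, h12] at h3
            omega
        · refine ⟨fun h6 => by omega, ?_⟩
          have h5 : cur = 0 := by
            apply sum_eq_zero
            intro p _
            have h6 := h.top
            have h7 : B - 1 = b + 1 := by omega
            rw [h7] at h6
            obtain ⟨h8, h9⟩ := h.un p (by omega)
            rw [h8, h9, rk_zero]
            have := hμ p
            omega
          omega
      obtain ⟨hc1, hc2⟩ := hcases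
      apply h.step hanti hμ hM (by omega) (D := s (b + 1) - cur) (by omega) (by omega)
      · intro h4
        obtain ⟨h5, h6⟩ := hc1 (by omega)
        have h7 : min (b + 1) (μ (kk (b + 1))) ≤ b + 1 := min_le_left _ _
        have h8 : min (b + 1) (μ (kk (b + 1))) ≤ M := (min_le_right _ _).trans (hμ _)
        rcases Nat.lt_or_ge (b + 1) (μ (kk (b + 1))) with h9 | h9
        · have := h6 h9
          omega
        · have := h5 h9
          omega
      · intro h4 h5
        have := (hc1 h4).1 (by omega)
        omega
  obtain ⟨kk, t, i, h⟩ := key (B - 1) 0 (by omega)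
  refine ⟨t, i, fun p _ => h.bd p, ?_⟩
  intro b hb
  rcases Nat.eq_zero_or_pos b with h0 | h0
  · subst h0
    have := h.mass hμ (by omega) (by omega) hs
    simpa using this
  · exact h.exact' b h0 hb

end Pool.Agent.Lib.MP_6b2d39_ag.Rel
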