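import Pool.Agent.Lib.MP_6b2d39_ag.Rel.Defs

/-!
Row sizes of an up-closed set of exponents (task Q of the relative theorem).
-/

namespace Pool.Agent.Lib.MP_6b2d39_ag.Rel

/-! ### Up-closed sets -/

theorem up_x {d : ℕ} {P : Finset (ℕ × ℕ)}
    (hup : ∀ i j, (i, j) ∈ P → i + j + 1 ≤ d → (i + 1, j) ∈ P ∧ (i, j + 1) ∈ P) (x : ℕ) :
    ∀ i j, (i, j) ∈ P → i + x + j ≤ d → (i + x, j) ∈ P := by
  induction x with
  | zero => intro i j h _; simpa using h
  | succ x ih =>
    intro i j h hd
    have h1 := ih i j h (by omega)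
    have h2 := (hup (i + x) j h1 (by omega)).1
    simpa [Nat.add_assoc] using h2

theorem up_y {d : ℕ} {P : Finset (ℕ × ℕ)}
    (hup : ∀ i j, (i, j) ∈ P → i + j + 1 ≤ d → (i + 1, j) ∈ P ∧ (i, j + 1) ∈ P) (y : ℕ) :
    ∀ i j, (i, j) ∈ P → i + (j + y) ≤ d → (i, j + y) ∈ P := by
  induction y with
  | zero => intro i j h _; simpa using h
  | succ y ih =>
    intro i j h hd
    have h1 := ih i j h (by omega)
    have h2 := (hup i (j + y) h1 (by omega)).2
    simpa [Nat.add_assoc] using h2

theorem up_xy {d : ℕ} {P : Finset (ℕ × ℕ)}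
    (hup : ∀ i j, (i, j) ∈ P → i + j + 1 ≤ d → (i + 1, j) ∈ P ∧ (i, j + 1) ∈ P) (x y i j : ℕ)
    (h : (i, j) ∈ P) (hd : i + x + (j + y) ≤ d) : (i + x, j + y) ∈ P :=
  up_y hup y (i + x) j (up_x hup x i j h (by omega)) hd

/-- the part of `P` of degree at most `d - b γ` -/
def Pb (d γ : ℕ) (P : Finset (ℕ × ℕ)) (b : ℕ) : Finset (ℕ × ℕ) :=
  P.filter (fun p => p.1 + p.2 + b * γ ≤ d)

theorem mem_Pb {d γ : ℕ} {P : Finset (ℕ × ℕ)} {b : ℕ} {p : ℕ × ℕ} :
    p ∈ Pb d γ P b ↔ p ∈ P ∧ p.1 + p.2 + b * γ ≤ d := by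
  unfold Pb
  rw [Finset.mem_filter]

/-- points of a chord: the difference of the heights determines everything -/
theorem chord {d β : ℕ} {p q : ℕ × ℕ} (hp : p.2 ≤ d) (hq : q.2 ≤ d)
    (h : p.1 + β * (d - p.2) = q.1 + β * (d - q.2)) (hpq : p.2 ≤ q.2) :
    q.1 = p.1 + β * (q.2 - p.2) := by
  have h1 : d - p.2 = (d - q.2) + (q.2 - p.2) := by omega
  rw [h1, Nat.mul_add] at h
  omega

theorem rowsP_eq {d β : ℕ} {P : Finset (ℕ × ℕ)} (hP : P ⊆ Tri d)
    (hup : ∀ i j, (i, j) ∈ P → i + j + 1 ≤ d → (i + 1, j) ∈ P ∧ (i, j + 1) ∈ P) (b : ℕ) :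
    rowsP d β P b = (Pb d (β + 1) P b).image (fun p => p.1 + β * (d - p.2)) := by
  ext E
  unfold rowsP
  rw [Finset.mem_filter, Finset.mem_image, Finset.mem_image]
  constructor
  · rintro ⟨_, hc⟩
    by_contra hcon
    set F := P.filter (fun p => p.1 + β * (d - p.2) = E) with hF
    have hFne : F.Nonempty := Finset.card_pos.mp (by omega)
    obtain ⟨p0, hp0, hmin⟩ := Finset.exists_min_image F (fun p => p.2) hFne
    have hp0' := Finset.mem_filter.mp hp0
    have hp0t := mem_Tri.mp (hP hp0'.1)
    have hinj : Set.InjOn (fun p : ℕ × ℕ => p.2) F := by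
      intro p hp q hq hpq
      have hp' := Finset.mem_filter.mp (Finset.mem_coe.mp hp)
      have hq' := Finset.mem_filter.mp (Finset.mem_coe.mp hq)
      have hpt := mem_Tri.mp (hP hp'.1)
      have hqt := mem_Tri.mp (hP hq'.1)
      have hpq' : p.2 = q.2 := hpq
      have := chord (β := β) (d := d) (p := p) (q := q) (by omega) (by omega)
        (by rw [hp'.2, hq'.2]) (by omega)
      rw [hpq'] at this
      ext
      · simp at this; omega
      · exact hpq'
    have hsub : F.image (fun p : ℕ × ℕ => p.2) ⊆ Finset.Ico p0.2 (p0.2 + b) := by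
      intro y hy
      obtain ⟨p, hp, rfl⟩ := Finset.mem_image.mp hy
      have hp' := Finset.mem_filter.mp hp
      have hpt := mem_Tri.mp (hP hp'.1)
      have hle := hmin p hp
      have hch := chord (β := β) (d := d) (p := p0) (q := p) (by omega) (by omega)
        (by rw [hp'.2, hp0'.2]) hle
      rw [Finset.mem_Ico]
      refine ⟨hle, ?_⟩
      by_contra hge
      apply hcon
      refine ⟨p0, mem_Pb.mpr ⟨hp0'.1, ?_⟩, hp0'.2⟩
      have h1 : b ≤ p.2 - p0.2 := by omega
      have h2 : β * b ≤ β * (p.2 - p0.2) := Nat.mul_le_mul_left _ h1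
      have h3 : b * (β + 1) = β * b + b := by ring
      omega
    have := Finset.card_le_card hsub
    rw [Finset.card_image_of_injOn hinj, Nat.card_Ico] at this
    omega
  · rintro ⟨p, hp, hpE⟩
    rw [mem_Pb] at hp
    have hpt := mem_Tri.mp (hP hp.1)
    refine ⟨⟨p, hp.1, hpE⟩, ?_⟩
    have hsub : (Finset.range (b + 1)).image (fun k => (p.1 + β * k, p.2 + k)) ⊆
        P.filter (fun p => p.1 + β * (d - p.2) = E) := by
      intro q hq
      obtain ⟨k, hk, rfl⟩ := Finset.mem_image.mp hq
      rw [Finset.mem_range] at hk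
      have h1 : β * k ≤ β * b := Nat.mul_le_mul_left _ (by omega)
      have h3 : b * (β + 1) = β * b + b := by ring
      rw [Finset.mem_filter]
      refine ⟨up_xy hup _ _ _ _ hp.1 (by omega), ?_⟩
      show p.1 + β * k + β * (d - (p.2 + k)) = E
      rw [← hpE]
      show _ = p.1 + β * (d - p.2)
      have h4 : d - p.2 = k + (d - (p.2 + k)) := by omega
      rw [h4, Nat.mul_add]
      ring
    have hcard := Finset.card_le_card hsub
    rw [Finset.card_image_of_injective, Finset.card_range] at hcard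
    · omega
    · intro k k' hkk
      have := congrArg Prod.snd hkk
      simp at this
      exact this

theorem card_rowsP {d β : ℕ} {P : Finset (ℕ × ℕ)} (hP : P ⊆ Tri d)
    (hup : ∀ i j, (i, j) ∈ P → i + j + 1 ≤ d → (i + 1, j) ∈ P ∧ (i, j + 1) ∈ P) (b : ℕ) :
    (rowsP d β P b).card + (Pb d (β + 1) P (b + 1)).card = (Pb d (β + 1) P b).card := by
  classical
  set e : ℕ × ℕ → ℕ := fun p => p.1 + β * (d - p.2) with he
  set pr : ℕ × ℕ → Prop := fun p => ∃ q ∈ P, p = (q.1 + β, q.2 + 1) with hpr
  have hmul : (b + 1) * (β + 1) = b * (β + 1) + (β + 1) := by ring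
  have h1 : (Pb d (β + 1) P b).filter pr =
      (Pb d (β + 1) P (b + 1)).image (fun q => (q.1 + β, q.2 + 1)) := by
    ext p
    rw [Finset.mem_filter, Finset.mem_image]
    constructor
    · rintro ⟨hp, q, hq, rfl⟩
      rw [mem_Pb] at hp
      refine ⟨q, mem_Pb.mpr ⟨hq, ?_⟩, rfl⟩
      have := hp.2
      simp only at this
      omega
    · rintro ⟨q, hq, rfl⟩
      rw [mem_Pb] at hq
      refine ⟨mem_Pb.mpr ⟨up_xy hup _ _ _ _ hq.1 (by omega), ?_⟩, q, hq.1, rfl⟩
      simp only
      omega
  have h2 : ((Pb d (β + 1) P b).filter pr).card = (Pb d (β + 1) P (b + 1)).card := by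
    rw [h1, Finset.card_image_of_injective]
    intro q q' hqq
    have h3 := congrArg Prod.fst hqq
    have h4 := congrArg Prod.snd hqq
    simp only at h3 h4
    ext <;> omega
  have h3 : ((Pb d (β + 1) P b).filter (fun p => ¬ pr p)).image e = rowsP d β P b := by
    rw [rowsP_eq hP hup]
    apply Finset.Subset.antisymm
    · exact Finset.image_subset_image (Finset.filter_subset _ _)
    · intro E hE
      obtain ⟨p, hp, hpE⟩ := Finset.mem_image.mp hE
      have key : ∀ n, ∀ p ∈ Pb d (β + 1) P b, p.2 = n → e p ∈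
          ((Pb d (β + 1) P b).filter (fun p => ¬ pr p)).image e := by
        intro n
        induction n with
        | zero =>
          intro p hp hp2
          refine Finset.mem_image.mpr ⟨p, Finset.mem_filter.mpr ⟨hp, ?_⟩, rfl⟩
          rintro ⟨q, hq, hqp⟩
          have := congrArg Prod.snd hqp
          simp only at this
          omega
        | succ n ih =>
          intro p hp hp2
          by_cases hpp : pr p
          · obtain ⟨q, hq, hqp⟩ := hpp
            have h4 : p.1 = q.1 + β := congrArg Prod.fst hqp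
            have h5 : p.2 = q.2 + 1 := congrArg Prod.snd hqp
            have hpt := mem_Tri.mp (hP (mem_Pb.mp hp).1)
            have h6 := (mem_Pb.mp hp).2
            have h7 := ih q (mem_Pb.mpr ⟨hq, by omega⟩) (by omega)
            have h8 : e q = e p := by
              rw [he]
              simp only
              have : d - q.2 = (d - p.2) + 1 := by omega
              rw [this, h4]
              ring
            rw [← h8]
            exact h7
          · exact Finset.mem_image.mpr ⟨p, Finset.mem_filter.mpr ⟨hp, hpp⟩, rfl⟩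
      have := key p.2 p hp rfl
      rw [← hpE]
      exact this
  have h4 : Set.InjOn e ((Pb d (β + 1) P b).filter (fun p => ¬ pr p)) := by
    have key : ∀ p ∈ (Pb d (β + 1) P b).filter (fun p => ¬ pr p),
        ∀ q ∈ (Pb d (β + 1) P b).filter (fun p => ¬ pr p), e p = e q → p.2 ≤ q.2 → p = q := by
      intro p hp q hq hpq hle
      have hp' := Finset.mem_filter.mp hp
      have hq' := Finset.mem_filter.mp hq
      have hpP := mem_Pb.mp hp'.1
      have hqP := mem_Pb.mp hq'.1
      have hpt := mem_Tri.mp (hP hpP.1)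
      have hqt := mem_Tri.mp (hP hqP.1)
      have hch := chord (β := β) (d := d) (p := p) (q := q) (by omega) (by omega) hpq hle
      by_cases heq : p.2 = q.2
      · rw [heq] at hch
        ext
        · simp at hch; omega
        · exact heq
      · exfalso
        apply hq'.2
        obtain ⟨k, hk⟩ : ∃ k, q.2 = p.2 + k + 1 := ⟨q.2 - p.2 - 1, by omega⟩
        have h5 : q.1 = p.1 + β * k + β := by
          rw [hch, show q.2 - p.2 = k + 1 by omega]
          ring
        refine ⟨(p.1 + β * k, p.2 + k), up_xy hup _ _ _ _ hpP.1 (by omega), ?_⟩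
        ext
        · simp only; omega
        · simp only; omega
    intro p hp q hq hpq
    rcases le_total p.2 q.2 with h | h
    · exact key p (Finset.mem_coe.mp hp) q (Finset.mem_coe.mp hq) hpq h
    · exact (key q (Finset.mem_coe.mp hq) p (Finset.mem_coe.mp hp) hpq.symm h).symm
  rw [← h3, Finset.card_image_of_injOn h4, ← h2, add_comm]
  exact Finset.card_filter_add_card_filter_not _

/-! ### The number of points of a triangle -/

theorem card_Tri (d : ℕ) : 2 * (Tri d).card = (d + 1) * (d + 2) := by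
  induction d with
  | zero => rfl
  | succ d ih =>
    have h : Tri (d + 1) = Tri d ∪ (Finset.range (d + 2)).image (fun i => (i, d + 1 - i)) := by
      ext p
      rw [Finset.mem_union, mem_Tri, mem_Tri, Finset.mem_image]
      constructor
      · intro hp
        by_cases hle : p.1 + p.2 ≤ d
        · exact Or.inl hle
        · right
          refine ⟨p.1, Finset.mem_range.mpr (by omega), ?_⟩
          ext
          · rfl
          · simp only; omega
      · rintro (hp | ⟨i, hi, rfl⟩)
        · omega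
        · rw [Finset.mem_range] at hi
          simp only
          omega
    have hdis : Disjoint (Tri d) ((Finset.range (d + 2)).image (fun i => (i, d + 1 - i))) := by
      rw [Finset.disjoint_left]
      intro p hp hp2
      obtain ⟨i, hi, rfl⟩ := Finset.mem_image.mp hp2
      rw [Finset.mem_range] at hi
      rw [mem_Tri] at hp
      simp only at hp
      omega
    rw [h, Finset.card_union_of_disjoint hdis, Finset.card_image_of_injective, Finset.card_range,
      Nat.mul_add, ih]
    · ring
    · intro i i' hii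
      exact congrArg Prod.fst hii

theorem card_Pb {d d' γ M : ℕ} {P : Finset (ℕ × ℕ)}
    (hbig : ∀ i j, d' < i + j → i + j ≤ d → (i, j) ∈ P) (hd : d' + (M + 1) * γ ≤ d) (b : ℕ)
    (hb : b ≤ M + 1) : (Pb d γ P b).card + (Tri d \ P).card = (Tri (d - b * γ)).card := by
  have hbγ : b * γ ≤ (M + 1) * γ := Nat.mul_le_mul_right _ hb
  have hdis : Disjoint (Pb d γ P b) (Tri d \ P) := by
    rw [Finset.disjoint_left]
    intro p hp hp2
    exact (Finset.mem_sdiff.mp hp2).2 (mem_Pb.mp hp).1
  rw [← Finset.card_union_of_disjoint hdis]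
  congr 1
  ext p
  rw [Finset.mem_union, mem_Pb, Finset.mem_sdiff, mem_Tri, mem_Tri]
  constructor
  · rintro (⟨hp, hp2⟩ | ⟨hp, hp2⟩)
    · omega
    · have : p.1 + p.2 ≤ d' := by
        by_contra hcon
        exact hp2 (hbig p.1 p.2 (by omega) hp)
      omega
  · intro hp
    by_cases hpP : p ∈ P
    · left
      exact ⟨hpP, by omega⟩
    · right
      exact ⟨by omega, hpP⟩

/-! ### Sumset estimate -/

open scoped Pointwise in
theorem card_step {d β : ℕ} (hβ : 1 ≤ β) {P : Finset (ℕ × ℕ)} (hP : P ⊆ Tri d)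
    (hup : ∀ i j, (i, j) ∈ P → i + j + 1 ≤ d → (i + 1, j) ∈ P ∧ (i, j + 1) ∈ P) (b : ℕ)
    (hne : (rowsP d β P (b + 1)).Nonempty) :
    2 * (rowsP d β P (b + 1)).card + (β + 2) * (β + 3) ≤ 2 * (rowsP d β P b).card + 4 := by
  classical
  set X : Finset ℤ := (rowsP d β P (b + 1)).image (fun e : ℕ => (e : ℤ)) with hX
  set Y : Finset ℤ := (rowsP d β P b).image (fun e : ℕ => (e : ℤ)) with hY
  set D : Finset ℤ := ((Tri (β + 1)).erase (0, 0)).image
    (fun h : ℕ × ℕ => (h.1 : ℤ) - (β : ℤ) * (h.2 : ℤ)) with hD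
  have hXc : X.card = (rowsP d β P (b + 1)).card :=
    Finset.card_image_of_injective _ Nat.cast_injective
  have hYc : Y.card = (rowsP d β P b).card :=
    Finset.card_image_of_injective _ Nat.cast_injective
  have hDc : 2 * D.card + 2 = (β + 2) * (β + 3) := by
    have h1 : D.card = ((Tri (β + 1)).erase (0, 0)).card := by
      apply Finset.card_image_of_injOn
      have key : ∀ p ∈ (Tri (β + 1)).erase (0, 0), ∀ q ∈ (Tri (β + 1)).erase (0, 0),
          (p.1 : ℤ) - (β : ℤ) * (p.2 : ℤ) = (q.1 : ℤ) - (β : ℤ) * (q.2 : ℤ) → p.2 ≤ q.2 →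
            p = q := by
        intro p hp q hq h hle
        have hp' := Finset.mem_erase.mp hp
        have hq' := Finset.mem_erase.mp hq
        have hpt := mem_Tri.mp hp'.2
        have hqt := mem_Tri.mp hq'.2
        obtain ⟨k, hk⟩ : ∃ k, q.2 = p.2 + k := ⟨q.2 - p.2, by omega⟩
        have h2 : q.1 = p.1 + β * k := by
          have : (q.1 : ℤ) = (p.1 : ℤ) + (β : ℤ) * (k : ℤ) := by
            have h3 : (q.2 : ℤ) = (p.2 : ℤ) + (k : ℤ) := by exact_mod_cast hk
            rw [h3] at h
            linear_combination -h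
          exact_mod_cast this
        rcases Nat.lt_or_ge k 1 with hk0 | hk1
        · have hk0' : k = 0 := by omega
          subst hk0'
          ext
          · rw [h2]; ring
          · omega
        · rcases Nat.lt_or_ge k 2 with hk2 | hk2
          · have hk' : k = 1 := by omega
            subst hk'
            exfalso
            apply hp'.1
            have : p.1 = 0 ∧ p.2 = 0 := by
              rw [Nat.mul_one] at h2
              omega
            ext
            · exact this.1
            · exact this.2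
          · exfalso
            have : β * 2 ≤ β * k := Nat.mul_le_mul_left _ hk2
            omega
      intro p hp q hq h
      rcases le_total p.2 q.2 with hle | hle
      · exact key p (Finset.mem_coe.mp hp) q (Finset.mem_coe.mp hq) h hle
      · exact (key q (Finset.mem_coe.mp hq) p (Finset.mem_coe.mp hp) h.symm hle).symm
    have h2 : (0, 0) ∈ Tri (β + 1) := mem_Tri.mpr (by simp)
    have h3 := Finset.card_erase_add_one h2
    have h4 := card_Tri (β + 1)
    rw [h1]
    have h5 : (β + 1 + 1) * (β + 1 + 2) = (β + 2) * (β + 3) := by ring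
    omega
  have hDne : D.Nonempty := by
    apply Finset.card_pos.mp
    nlinarith
  have hXne : X.Nonempty := hne.image _
  have hsub : X + D ⊆ Y := by
    intro z hz
    obtain ⟨u, hu, w, hw, rfl⟩ := Finset.mem_add.mp hz
    obtain ⟨E, hE, rfl⟩ := Finset.mem_image.mp hu
    obtain ⟨h, hh, rfl⟩ := Finset.mem_image.mp hw
    rw [rowsP_eq hP hup] at hE
    obtain ⟨p, hp, hpE⟩ := Finset.mem_image.mp hE
    have hht := mem_Tri.mp (Finset.mem_erase.mp hh).2
    rw [mem_Pb] at hp
    have hmul : (b + 1) * (β + 1) = b * (β + 1) + (β + 1) := by ring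
    rw [hY, rowsP_eq hP hup]
    refine Finset.mem_image.mpr ⟨p.1 + h.1 + β * (d - (p.2 + h.2)), ?_, ?_⟩
    · refine Finset.mem_image.mpr ⟨(p.1 + h.1, p.2 + h.2), mem_Pb.mpr ⟨?_, ?_⟩, rfl⟩
      · exact up_xy hup _ _ _ _ hp.1 (by omega)
      · simp only
        omega
    · have hpt := mem_Tri.mp (hP hp.1)
      rw [← hpE]
      have h1 : p.2 + h.2 ≤ d := by omega
      have h2 : p.2 ≤ d := by omega
      push_cast [Nat.cast_sub h1, Nat.cast_sub h2]
      ring
  have hcd := cauchy_davenport_add_of_linearOrder_isCancelAdd hXne hDne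
  have := Finset.card_le_card hsub
  omega

/-! ### The theorem -/

theorem count_rows {d d' γ M A : ℕ} (hγ : 2 ≤ γ) (P : Finset (ℕ × ℕ)) (hP : P ⊆ Tri d)
    (hup : ∀ i j, (i, j) ∈ P → i + j + 1 ≤ d → (i + 1, j) ∈ P ∧ (i, j + 1) ∈ P)
    (hbig : ∀ i j, d' < i + j → i + j ≤ d → (i, j) ∈ P)
    (hd : d' + (2 * M + 1) * γ + 1 ≤ d) (hA : 2 * A + 4 ≤ (γ + 1) * (γ + 2)) :
    ∃ B, 2 * M + 2 ≤ B ∧ (∀ b, B ≤ b → rowsP d (γ - 1) P b = ∅) ∧
      (∀ b, b + 2 ≤ B → (rowsP d (γ - 1) P (b + 1)).card + A ≤ (rowsP d (γ - 1) P b).card) ∧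
      (∀ b < M, (rowsP d (γ - 1) P b).card = (rowsP d (γ - 1) P (b + 1)).card + γ ^ 2) ∧
      ∑ b ∈ Finset.range B, (rowsP d (γ - 1) P b).card = P.card := by
  classical
  obtain ⟨β, rfl⟩ : ∃ β, γ = β + 1 := ⟨γ - 1, by omega⟩
  have hβ : 1 ≤ β := by omega
  rw [Nat.add_sub_cancel]
  have hanti : ∀ b c, b ≤ c → rowsP d β P c ⊆ rowsP d β P b := by
    intro b c hbc
    rw [rowsP_eq hP hup, rowsP_eq hP hup]
    apply Finset.image_subset_image
    intro p hp
    rw [mem_Pb] at hp ⊢
    have : b * (β + 1) ≤ c * (β + 1) := Nat.mul_le_mul_right _ hbc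
    exact ⟨hp.1, by omega⟩
  have hex : ∃ b, rowsP d β P b = ∅ := by
    refine ⟨d + 1, ?_⟩
    rw [rowsP_eq hP hup, Finset.image_eq_empty]
    apply Finset.eq_empty_of_forall_notMem
    intro p hp
    rw [mem_Pb] at hp
    have : (d + 1) * 1 ≤ (d + 1) * (β + 1) := Nat.mul_le_mul_left _ (by omega)
    omega
  set B := Nat.find hex with hB
  have hBe : rowsP d β P B = ∅ := Nat.find_spec hex
  have hBm : ∀ b < B, (rowsP d β P b).Nonempty := by
    intro b hb
    exact Finset.nonempty_iff_ne_empty.mpr (Nat.find_min hex hb)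
  have hBtop : ∀ b, B ≤ b → rowsP d β P b = ∅ := by
    intro b hb
    exact Finset.subset_empty.mp (hBe ▸ hanti B b hb)
  have hstart : (rowsP d β P (2 * M + 1)).Nonempty := by
    rw [rowsP_eq hP hup]
    apply Finset.Nonempty.image
    refine ⟨(d' + 1, 0), mem_Pb.mpr ⟨hbig _ _ (by omega) ?_, ?_⟩⟩
    · have : 0 ≤ (2 * M + 1) * (β + 1) := Nat.zero_le _
      omega
    · simp only
      omega
  refine ⟨B, ?_, hBtop, ?_, ?_, ?_⟩
  · by_contra hcon
    have := hBtop (2 * M + 1) (by omega)
    rw [this] at hstart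
    exact Finset.not_nonempty_empty hstart
  · intro b hb
    have h1 := card_step hβ hP hup b (hBm (b + 1) (by omega))
    have h2 : (β + 1 + 1) * (β + 1 + 2) = (β + 2) * (β + 3) := by ring
    omega
  · intro b hb
    have hd2 : d' + (M + 1) * (β + 1) ≤ d := by
      have : (M + 1) * (β + 1) ≤ (2 * M + 1) * (β + 1) := Nat.mul_le_mul_right _ (by omega)
      omega
    have h0 := card_Pb hbig hd2 b (by omega)
    have h1 := card_Pb hbig hd2 (b + 1) (by omega)
    have h2 := card_Pb hbig hd2 (b + 2) (by omega)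
    have r0 := card_rowsP (β := β) hP hup b
    have r1 := card_rowsP (β := β) hP hup (b + 1)
    rw [show b + 1 + 1 = b + 2 from rfl] at r1
    obtain ⟨n, hn⟩ : ∃ n, d = n + (b + 2) * (β + 1) := by
      refine ⟨d - (b + 2) * (β + 1), ?_⟩
      have : (b + 2) * (β + 1) ≤ (M + 1) * (β + 1) := Nat.mul_le_mul_right _ (by omega)
      omega
    have e2 : d - (b + 2) * (β + 1) = n := by omega
    have e1 : d - (b + 1) * (β + 1) = n + (β + 1) := by
      have : (b + 2) * (β + 1) = (b + 1) * (β + 1) + (β + 1) := by ring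
      omega
    have e0 : d - b * (β + 1) = n + 2 * (β + 1) := by
      have : (b + 2) * (β + 1) = b * (β + 1) + 2 * (β + 1) := by ring
      omega
    rw [e0] at h0
    rw [e1] at h1
    rw [e2] at h2
    have t0 := card_Tri (n + 2 * (β + 1))
    have t1 := card_Tri (n + (β + 1))
    have t2 := card_Tri n
    have hid : (n + 2 * (β + 1) + 1) * (n + 2 * (β + 1) + 2) + (n + 1) * (n + 2) =
        2 * ((n + (β + 1) + 1) * (n + (β + 1) + 2)) + 2 * (β + 1) ^ 2 := by ring
    omega
  · have key : ∀ n, ∑ b ∈ Finset.range n, (rowsP d β P b).card + (Pb d (β + 1) P n).card =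
        (Pb d (β + 1) P 0).card := by
      intro n
      induction n with
      | zero => simp
      | succ n ih =>
        rw [Finset.sum_range_succ, ← ih, ← card_rowsP hP hup n]
        ring
    have h1 := key B
    have h2 : Pb d (β + 1) P B = ∅ := by
      rw [rowsP_eq hP hup, Finset.image_eq_empty] at hBe
      exact hBe
    have h3 : Pb d (β + 1) P 0 = P := by
      ext p
      rw [mem_Pb]
      constructor
      · exact fun h => h.1
      · intro h
        have := mem_Tri.mp (hP h)
        exact ⟨h, by omega⟩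
    rw [h2, h3, Finset.card_empty, add_zero] at h1
    exact h1

end Pool.Agent.Lib.MP_6b2d39_ag.Rel
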