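import Pool.Agent.Lib.MP_6b2d39_ag.GoodE
import Pool.Agent.Lib.MP_6b2d39_ag.Transfer

/-!
Definitions for the relative theorem (points of large multiplicity that impose independent
conditions in degree `d'`, together with points of bounded multiplicity).
-/

open Polynomial

namespace Pool.Agent.Lib.MP_6b2d39_ag.Rel

/-- exponents of degree at most `d` -/
def Tri (d : ℕ) : Finset (ℕ × ℕ) :=
  (Finset.range (d + 1) ×ˢ Finset.range (d + 1)).filter (fun p => p.1 + p.2 ≤ d)

theorem mem_Tri {d : ℕ} {p : ℕ × ℕ} : p ∈ Tri d ↔ p.1 + p.2 ≤ d := by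
  unfold Tri
  rw [Finset.mem_filter, Finset.mem_product, Finset.mem_range, Finset.mem_range]
  omega

/-- `f` is supported on `P` -/
def SuppP {R : Type*} [CommRing R] (P : Finset (ℕ × ℕ)) (f : R[X][X]) : Prop :=
  ∀ i j, (i, j) ∉ P → (f.coeff i).coeff j = 0

/-- positions (off the coordinate axes) at which no nonzero polynomial supported on `P` has
multiplicity `m i` at every point -/
def GoodP (k : Type) [Field k] {ι : Type} (P : Finset (ℕ × ℕ)) (m : ι → ℕ) : Prop :=
  ∃ (K : Type) (_ : Field K) (_ : k →+* K) (x y : ι → K), Function.Injective x ∧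
    (∀ i, x i ≠ 0) ∧ (∀ i, y i ≠ 0) ∧ ∀ f : K[X][X], SuppP P f →
      (∀ i, Cond (Finset.Icc 1 (m i)) (x i) (y i) f) → f = 0

/-- the same for polynomials supported on the rows `E b` (`E b` = exponents of `x` in the
coefficient of `y ^ b`) -/
def GoodN (k : Type) [Field k] {ι : Type} (E : ℕ → Finset ℕ) (m : ι → ℕ) : Prop :=
  ∃ (K : Type) (_ : Field K) (_ : k →+* K) (x y : ι → K), Function.Injective x ∧
    (∀ i, x i ≠ 0) ∧ (∀ i, y i ≠ 0) ∧ ∀ f : K[X][X], SuppIn E f →
      (∀ i, Cond (Finset.Icc 1 (m i)) (x i) (y i) f) → f = 0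

/-- the same for polynomials of degree `< n`, without conditions on the positions -/
def Good0 (k : Type) [Field k] {ι : Type} (n : ℕ) (m : ι → ℕ) : Prop :=
  ∃ (K : Type) (_ : Field K) (_ : k →+* K) (x y : ι → K), ∀ f : K[X][X], InV n f →
    (∀ i, Cond (Finset.Icc 1 (m i)) (x i) (y i) f) → f = 0

/-- the rows of `P`: number the chords of direction `(β, 1)` by `i + β * (d - j)`; the row `b`
consists of the chords with more than `b` points -/
def rowsP (d β : ℕ) (P : Finset (ℕ × ℕ)) (b : ℕ) : Finset ℕ :=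
  (P.image (fun p => p.1 + β * (d - p.2))).filter
    (fun e => b < (P.filter (fun p => p.1 + β * (d - p.2) = e)).card)

/-- weight of an exponent; it is injective on `Tri d` -/
def wt (d : ℕ) (p : ℕ × ℕ) : ℕ := (d + 1) * p.1 + (d + 2) * p.2

/-- `p` is the leading exponent of a polynomial of degree at most `d` with multiplicity
at least `n z` at `(qx z, qy z)` for every `z` -/
def IsLead {k : Type} [Field k] {ι : Type} (d : ℕ) (n : ι → ℕ) (qx qy : ι → k) (p : ℕ × ℕ) : Prop :=
  ∃ f : k[X][X], InV (d + 1) f ∧ (∀ z, Cond (Finset.Icc 1 (n z)) (qx z) (qy z) f) ∧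
    (f.coeff p.1).coeff p.2 ≠ 0 ∧
      ∀ i j, wt d p < wt d (i, j) → (f.coeff i).coeff j = 0

open Classical in
/-- the set of leading exponents -/
noncomputable def leadSet {k : Type} [Field k] {ι : Type} (d : ℕ) (n : ι → ℕ) (qx qy : ι → k) :
    Finset (ℕ × ℕ) := (Tri d).filter (IsLead d n qx qy)

/-- the fat points impose independent conditions on the polynomials of degree at most `d` -/
def Reg {k : Type} [Field k] {ι : Type} (d : ℕ) (n : ι → ℕ) (qx qy : ι → k) : Prop :=
  ∀ τ : ι → ℕ → ℕ → k, ∃ c : Transfer.Ix d → k, ∀ z a b, a + b < n z →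
    ∑ i : Transfer.Ix d, Transfer.entry (qx z) (qy z) a b i.1.1 i.1.2 * c i = τ z a b

end Pool.Agent.Lib.MP_6b2d39_ag.Rel
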