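import Pool.Agent.Lib.MP_6b2d39_ag.Rel.Defs
import Pool.Agent.Lib.MP_6b2d39_ag.ThickStep
import Pool.Agent.Lib.MP_6b2d39_ag.LowerBound

/-!
The set of leading exponents of the polynomials of degree at most `d` with given multiplicities at
given points.
-/

open Polynomial

namespace Pool.Agent.Lib.MP_6b2d39_ag.Rel

section lead

variable {k : Type} [Field k] {ι : Type}

theorem mem_leadSet {d : ℕ} {n : ι → ℕ} {qx qy : ι → k} {p : ℕ × ℕ} :
    p ∈ leadSet d n qx qy ↔ p.1 + p.2 ≤ d ∧ IsLead d n qx qy p := by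
  classical
  unfold leadSet
  rw [Finset.mem_filter, mem_Tri]

theorem wt_lt_of_deg_lt {d a b i j : ℕ} (h : a + b < i + j) (hb : b ≤ d) :
    wt d (a, b) < wt d (i, j) := by
  unfold wt
  simp only
  have h1 : (d + 1) * (a + b + 1) ≤ (d + 1) * (i + j) := Nat.mul_le_mul_left _ h
  nlinarith

theorem wt_inj {d a b i j : ℕ} (h : wt d (a, b) = wt d (i, j)) (hb : a + b ≤ d) (_hj : i + j ≤ d) :
    a = i ∧ b = j := by
  rcases lt_trichotomy (a + b) (i + j) with h1 | h1 | h1
  · have := wt_lt_of_deg_lt (d := d) h1 (by omega)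
    omega
  · unfold wt at h
    simp only at h
    have h2 : (d + 1) * (a + b) = (d + 1) * (i + j) := by rw [h1]
    have h3 : b = j := by nlinarith
    omega
  · have := wt_lt_of_deg_lt (d := d) h1 (by omega)
    omega

theorem lead_up {d : ℕ} {n : ι → ℕ} {qx qy : ι → k} {i j : ℕ} (h : (i, j) ∈ leadSet d n qx qy)
    (hij : i + j + 1 ≤ d) : (i + 1, j) ∈ leadSet d n qx qy ∧ (i, j + 1) ∈ leadSet d n qx qy := by
  rw [mem_leadSet] at h
  obtain ⟨-, f, hf, hc, hl, hz⟩ := h
  have hdeg : ∀ a b, d ≤ a + b → (f.coeff a).coeff b = 0 := by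
    intro a b hab
    apply hz
    exact wt_lt_of_deg_lt (by omega) (by omega)
  constructor
  · rw [mem_leadSet]
    refine ⟨by simp only; omega, X * f, ?_, ?_, ?_, ?_⟩
    · intro a b hab
      cases a with
      | zero => rw [coeff_X_mul_zero, coeff_zero]
      | succ a =>
        rw [coeff_X_mul]
        apply hdeg
        omega
    · intro z
      rw [cond_iff]
      exact Ideal.mul_mem_left _ _ ((cond_iff _ _ _ _).1 (hc z))
    · rw [coeff_X_mul]
      exact hl
    · intro a b hab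
      cases a with
      | zero => rw [coeff_X_mul_zero, coeff_zero]
      | succ a =>
        rw [coeff_X_mul]
        apply hz
        unfold wt at hab ⊢
        simp only at hab ⊢
        linarith
  · rw [mem_leadSet]
    refine ⟨by simp only; omega, C X * f, ?_, ?_, ?_, ?_⟩
    · intro a b hab
      rw [coeff_C_mul]
      cases b with
      | zero => rw [coeff_X_mul_zero]
      | succ b =>
        rw [coeff_X_mul]
        apply hdeg
        omega
    · intro z
      rw [cond_iff]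
      exact Ideal.mul_mem_left _ _ ((cond_iff _ _ _ _).1 (hc z))
    · rw [coeff_C_mul, coeff_X_mul]
      exact hl
    · intro a b hab
      rw [coeff_C_mul]
      cases b with
      | zero => rw [coeff_X_mul_zero]
      | succ b =>
        rw [coeff_X_mul]
        apply hz
        unfold wt at hab ⊢
        simp only at hab ⊢
        linarith

theorem lead_big {d d' : ℕ} {n : ι → ℕ} {qx qy : ι → k} (hreg : Reg d' n qx qy) {i j : ℕ}
    (h1 : d' < i + j) (h2 : i + j ≤ d) : (i, j) ∈ leadSet d n qx qy := by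
  obtain ⟨c, hc⟩ := hreg (fun z a b => Transfer.entry (qx z) (qy z) a b i j)
  rw [mem_leadSet]
  have hV := Transfer.inV_ofCoeffs c
  have hmon : ∀ a b, ((monomial i (monomial j (1 : k)) : k[X][X]).coeff a).coeff b =
      if i = a ∧ j = b then 1 else 0 := by
    intro a b
    rw [coeff_monomial]
    by_cases h : i = a
    · rw [if_pos h, coeff_monomial]
      by_cases h' : j = b
      · rw [if_pos h', if_pos ⟨h, h'⟩]
      · rw [if_neg h', if_neg (fun e => h' e.2)]
    · rw [if_neg h, if_neg (fun e => h e.1), coeff_zero]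
  refine ⟨h2, monomial i (monomial j 1) - Transfer.ofCoeffs c, ?_, ?_, ?_, ?_⟩
  · intro a b hab
    rw [coeff_sub, coeff_sub, hV a b (by omega), hmon, if_neg, sub_zero]
    rintro ⟨rfl, rfl⟩
    omega
  · intro z a
    rw [colH_Icc_thick, X_sub_C_pow_dvd_iff, ← taylor_apply, X_pow_dvd_iff]
    intro b hb
    rw [map_sub, coeff_sub, map_sub, coeff_sub, Transfer.coeff_taylor_monomial,
      Transfer.coeff_taylor_ofCoeffs, hc z a b (by omega), mul_one, sub_self]
  · rw [coeff_sub, coeff_sub, hV i j (by omega), hmon, if_pos ⟨rfl, rfl⟩, sub_zero]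
    exact one_ne_zero
  · intro a b hab
    rw [coeff_sub, coeff_sub, hmon, if_neg]
    · rw [zero_sub, neg_eq_zero]
      rcases Nat.lt_or_ge (a + b) (d' + 1) with h | h
      · have := wt_lt_of_deg_lt (d := d) (show a + b < i + j by omega) (by omega)
        omega
      · exact hV a b h
    · rintro ⟨rfl, rfl⟩
      omega

theorem ofCoeffs_of_inV {R : Type*} [CommRing R] {d : ℕ} {f : R[X][X]} (hf : InV (d + 1) f) :
    Transfer.ofCoeffs (fun i : Transfer.Ix d => (f.coeff (i.1.1 : ℕ)).coeff (i.1.2 : ℕ)) = f := by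
  ext a b
  rcases Nat.lt_or_ge d (a + b) with h | h
  · rw [Transfer.inV_ofCoeffs _ a b h, hf a b h]
  · exact Transfer.ofCoeffs_coeff_self _
      (⟨(⟨a, by omega⟩, ⟨b, by omega⟩), h⟩ : Transfer.Ix d)

theorem card_Ix_le (d : ℕ) : Fintype.card (Transfer.Ix d) ≤ (d + 2).choose 2 := by
  rw [← card_jetIdx (d + 1)]
  refine Fintype.card_le_of_injective
    (fun i : Transfer.Ix d =>
      (⟨⟨(i.1.1 : ℕ) + (i.1.2 : ℕ), Nat.lt_succ_of_le i.2⟩,
        ⟨(i.1.1 : ℕ), by simp only; omega⟩⟩ : JetIdx (d + 1))) ?_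
  intro i j hij
  have h1 : (i.1.1 : ℕ) + (i.1.2 : ℕ) = (j.1.1 : ℕ) + (j.1.2 : ℕ) := by
    have := congrArg (fun t : JetIdx (d + 1) => (t.1 : ℕ)) hij
    exact this
  have h2 : (i.1.1 : ℕ) = (j.1.1 : ℕ) := by
    have := congrArg (fun t : JetIdx (d + 1) => (t.2 : ℕ)) hij
    exact this
  exact Subtype.ext (Prod.ext (Fin.ext h2) (Fin.ext (by omega)))

/-- the linear map taking the coefficients to the jets -/
noncomputable def jetMap [Fintype ι] (d : ℕ) (n : ι → ℕ) (qx qy : ι → k) :
    (Transfer.Ix d → k) →ₗ[k] ((Σ z, JetIdx (n z)) → k) where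
  toFun c t := ∑ i : Transfer.Ix d,
    Transfer.entry (qx t.1) (qy t.1) (t.2.2 : ℕ) ((t.2.1 : ℕ) - (t.2.2 : ℕ)) i.1.1 i.1.2 * c i
  map_add' c c' := by
    ext t
    simp only [Pi.add_apply, mul_add, Finset.sum_add_distrib]
  map_smul' r c := by
    ext t
    simp only [Pi.smul_apply, smul_eq_mul, RingHom.id_apply, Finset.mul_sum]
    exact Finset.sum_congr rfl fun i _ => by ring

theorem jetMap_apply [Fintype ι] (d : ℕ) (n : ι → ℕ) (qx qy : ι → k) (c : Transfer.Ix d → k)
    (t : Σ z, JetIdx (n z)) : jetMap d n qx qy c t = ∑ i : Transfer.Ix d,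
    Transfer.entry (qx t.1) (qy t.1) (t.2.2 : ℕ) ((t.2.1 : ℕ) - (t.2.2 : ℕ)) i.1.1 i.1.2 * c i :=
  rfl

theorem jetMap_surjective [Fintype ι] {d d' : ℕ} {n : ι → ℕ} {qx qy : ι → k}
    (hreg : Reg d' n qx qy) (hd : d' ≤ d) : Function.Surjective (jetMap d n qx qy) := by
  intro g
  obtain ⟨c, hc⟩ := hreg (fun z a b => if h : a + b < n z then
    g ⟨z, ⟨⟨a + b, h⟩, ⟨a, by simp only; omega⟩⟩⟩ else 0)
  refine ⟨fun i => ((Transfer.ofCoeffs c).coeff (i.1.1 : ℕ)).coeff (i.1.2 : ℕ), ?_⟩
  ext t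
  obtain ⟨z, s, r⟩ := t
  have hr := r.2
  have hs := s.2
  rw [jetMap_apply, ← Transfer.coeff_taylor_ofCoeffs, ofCoeffs_of_inV,
    Transfer.coeff_taylor_ofCoeffs, hc]
  · have h1 : (r : ℕ) + ((s : ℕ) - (r : ℕ)) = s := by omega
    have h2 : (r : ℕ) + ((s : ℕ) - (r : ℕ)) < n z := by omega
    rw [dif_pos h2]
    congr 1
    have h3 : (⟨(r : ℕ) + ((s : ℕ) - (r : ℕ)), h2⟩ : Fin (n z)) = s := Fin.ext h1
    refine Sigma.ext rfl (heq_of_eq (Sigma.ext h3 ?_))
    simp only
    rw [Fin.heq_ext_iff]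
    simp only [h1]
  · simp only
    omega
  · intro a b hab
    exact Transfer.inV_ofCoeffs c a b (by omega)

theorem lead_card [Fintype ι] {d d' : ℕ} {n : ι → ℕ} {qx qy : ι → k} (hreg : Reg d' n qx qy)
    (hd : d' ≤ d) : (leadSet d n qx qy).card + ∑ z, (n z + 1).choose 2 ≤ (d + 2).choose 2 := by
  have hsurj := jetMap_surjective hreg hd
  have hrank := LinearMap.finrank_range_add_finrank_ker (jetMap d n qx qy)
  rw [LinearMap.range_eq_top.2 hsurj, finrank_top, Module.finrank_fintype_fun_eq_card,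
    Module.finrank_fintype_fun_eq_card, Fintype.card_sigma] at hrank
  simp only [card_jetIdx] at hrank
  have hIx := card_Ix_le d
  -- linearly independent elements of the kernel
  have hex : ∀ p : leadSet d n qx qy, ∃ c : LinearMap.ker (jetMap d n qx qy),
      ∃ f : k[X][X], (∀ i : Transfer.Ix d, c.1 i = (f.coeff (i.1.1 : ℕ)).coeff (i.1.2 : ℕ)) ∧
        (f.coeff p.1.1).coeff p.1.2 ≠ 0 ∧
        ∀ i j, wt d p.1 < wt d (i, j) → (f.coeff i).coeff j = 0 := by
    rintro ⟨p, hp⟩
    rw [mem_leadSet] at hp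
    obtain ⟨-, f, hf, hc, hl, hz⟩ := hp
    refine ⟨⟨fun i => (f.coeff (i.1.1 : ℕ)).coeff (i.1.2 : ℕ), ?_⟩, f, fun i => rfl, hl, hz⟩
    rw [LinearMap.mem_ker]
    ext t
    obtain ⟨z, s, r⟩ := t
    have hr := r.2
    have hs := s.2
    rw [jetMap_apply, ← Transfer.coeff_taylor_ofCoeffs, ofCoeffs_of_inV hf, Pi.zero_apply]
    have h1 := hc z (r : ℕ)
    rw [colH_Icc_thick, X_sub_C_pow_dvd_iff, ← taylor_apply, X_pow_dvd_iff] at h1
    apply h1
    simp only
    omega
  choose c f hcf hl hz using hex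
  have hli : LinearIndependent k c := by
    classical
    rw [Fintype.linearIndependent_iff]
    intro g hg
    by_contra hcon
    push Not at hcon
    obtain ⟨p1, hp1⟩ := hcon
    obtain ⟨p0, hp0, hmax⟩ := Finset.exists_max_image
      (Finset.univ.filter (fun p => g p ≠ 0)) (fun p => wt d p.1)
      ⟨p1, Finset.mem_filter.2 ⟨Finset.mem_univ _, hp1⟩⟩
    rw [Finset.mem_filter] at hp0
    have hp0d := (mem_leadSet.1 p0.2).1
    let i0 : Transfer.Ix d := ⟨(⟨p0.1.1, by omega⟩, ⟨p0.1.2, by omega⟩), hp0d⟩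
    have h1 : ∑ p, g p * (c p).1 i0 = 0 := by
      have h2 := congrArg (fun v : LinearMap.ker (jetMap d n qx qy) => v.1 i0) hg
      simpa using h2
    rw [Finset.sum_eq_single p0] at h1
    · rw [hcf] at h1
      rcases mul_eq_zero.1 h1 with h | h
      · exact hp0.2 h
      · exact hl p0 h
    · intro p _ hp
      by_cases hgp : g p = 0
      · rw [hgp, zero_mul]
      · rw [hcf]
        have h3 := hmax p (Finset.mem_filter.2 ⟨Finset.mem_univ _, hgp⟩)
        rcases Nat.lt_or_ge (wt d p.1) (wt d p0.1) with h4 | h4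
        · rw [hz p _ _ h4, mul_zero]
        · exfalso
          apply hp
          have h5 := wt_inj (d := d) (a := p.1.1) (b := p.1.2) (i := p0.1.1) (j := p0.1.2)
            (le_antisymm h3 h4) (mem_leadSet.1 p.2).1 hp0d
          exact Subtype.ext (Prod.ext h5.1 h5.2)
    · intro h
      exact absurd (Finset.mem_univ _) h
  have hcard := hli.fintype_card_le_finrank
  rw [Fintype.card_coe] at hcard
  omega

end lead

end Pool.Agent.Lib.MP_6b2d39_ag.Rel
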