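import Pool.Agent.Lib.MP_6b2d39_ag.Rel.Defs

/-!
Fat points on a line impose independent conditions if the sum of the multiplicities is at most
`d + 1` (task H).
-/

open Polynomial

namespace Pool.Agent.Lib.MP_6b2d39_ag.Rel

/-- Hermite interpolation -/
private theorem lr_hermite {K : Type} [Field K] {h : ℕ} (x : Fin h → K)
    (hx : Function.Injective x) (r : Fin h → ℕ) (τ : Fin h → ℕ → K) :
    ∃ q : K[X], (∀ s, ∑ z, r z ≤ s → q.coeff s = 0) ∧
      ∀ z a, a < r z → (taylor (x z) q).coeff a = τ z a := by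
  classical
  set N := ∑ z, r z with hN
  let T : degreeLT K N →ₗ[K] ((z : Fin h) → (Fin (r z) → K)) :=
    { toFun := fun q z a => (taylor (x z) (q : K[X])).coeff (a : ℕ)
      map_add' := by
        intro p q
        ext z a
        simp
      map_smul' := by
        intro c q
        ext z a
        simp }
  have hinj : Function.Injective T := by
    rw [← LinearMap.ker_eq_bot, LinearMap.ker_eq_bot']
    intro q hq
    apply Subtype.ext
    refine trace_zero Finset.univ x (fun i _ j _ hij => hx hij) r (n := N) le_rfl ?_ ?_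
    · intro a ha
      exact coeff_eq_zero_of_degree_lt (lt_of_lt_of_le (mem_degreeLT.1 q.2) (by exact_mod_cast ha))
    · intro z _ a ha
      have := congrFun (congrFun hq z) ⟨a, ha⟩
      exact this
  have hdim : Module.finrank K (degreeLT K N) =
      Module.finrank K ((z : Fin h) → (Fin (r z) → K)) := by
    rw [(degreeLTEquiv K N).finrank_eq, Module.finrank_fin_fun, Module.finrank_pi_fintype]
    simp [hN]
  have : FiniteDimensional K (degreeLT K N) :=
    (degreeLTEquiv K N).symm.finiteDimensional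
  have hsurj : Function.Surjective T :=
    (LinearMap.injective_iff_surjective_of_finrank_eq_finrank hdim).1 hinj
  obtain ⟨q, hq⟩ := hsurj (fun z a => τ z a)
  refine ⟨q, ?_, ?_⟩
  · intro s hs
    exact coeff_eq_zero_of_degree_lt (lt_of_lt_of_le (mem_degreeLT.1 q.2) (by exact_mod_cast hs))
  · intro z a ha
    exact congrFun (congrFun hq z) ⟨a, ha⟩

private theorem lr_taylor {K : Type} [Field K] (x : K) (q : K[X]) (D a : ℕ)
    (hq : ∀ s, D < s → q.coeff s = 0) :
    (taylor x q).coeff a =
      ∑ s : Fin (D + 1), x ^ ((s : ℕ) - a) * ((s : ℕ).choose a : K) * q.coeff s := by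
  have h1 : q = ∑ s ∈ Finset.range (D + 1), monomial s (q.coeff s) := by
    refine q.as_sum_range' (D + 1) ?_
    rw [Nat.lt_succ_iff, natDegree_le_iff_coeff_eq_zero]
    exact hq
  conv_lhs => rw [h1]
  rw [map_sum, finsetSum_coeff, Finset.sum_range]
  refine Finset.sum_congr rfl fun s _ => ?_
  rw [taylor_monomial, coeff_C_mul, coeff_X_add_C_pow]
  ring

private theorem lr_entry {K : Type} [Field K] (x : K) (a b s t : ℕ) :
    Transfer.entry x 0 a b s t = if t = b then x ^ (s - a) * (s.choose a : K) else 0 := by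
  unfold Transfer.entry
  split_ifs with h
  · subst h
    simp
  · rcases Nat.lt_or_gt_of_ne h with h1 | h1
    · rw [Nat.choose_eq_zero_of_lt h1]
      simp
    · rw [zero_pow (by omega)]
      simp

private theorem lr_sum {K : Type} [Field K] {d : ℕ} (x : K) (q : ℕ → K[X])
    (hq : ∀ b s, d < s + b → (q b).coeff s = 0) (a b : ℕ) (hb : b ≤ d) :
    ∑ i : Transfer.Ix d, Transfer.entry x 0 a b i.1.1 i.1.2 * (q i.1.2).coeff i.1.1 =
      (taylor x (q b)).coeff a := by
  classical
  rw [lr_taylor x (q b) d a (fun s hs => hq b s (by omega))]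
  have h1 : ∑ i : Transfer.Ix d, Transfer.entry x 0 a b i.1.1 i.1.2 * (q i.1.2).coeff i.1.1 =
      ∑ p ∈ (Finset.univ : Finset (Fin (d + 1) × Fin (d + 1))).filter
        (fun p => (p.1 : ℕ) + (p.2 : ℕ) ≤ d),
        Transfer.entry x 0 a b p.1 p.2 * (q p.2).coeff p.1 := by
    rw [← Finset.sum_subtype_eq_sum_filter]
    refine Finset.sum_congr ?_ fun _ _ => rfl
    ext i
    simp
  rw [h1, Finset.sum_filter, Fintype.sum_prod_type]
  refine Finset.sum_congr rfl fun s _ => ?_
  rw [Finset.sum_eq_single (⟨b, by omega⟩ : Fin (d + 1))]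
  · simp only [lr_entry, if_true]
    split_ifs with h
    · rfl
    · rw [hq b s (by simpa using h), mul_zero]
  · intro t _ ht
    have : (t : ℕ) ≠ b := fun h => ht (Fin.ext h)
    rw [lr_entry, if_neg this]
    simp
  · intro h
    exact absurd (Finset.mem_univ _) h

theorem line_reg {d h : ℕ} (n : Fin h → ℕ) (H : ∑ i, n i ≤ d + 1) :
    Reg (k := ℂ) d n (fun i : Fin h => ((i : ℕ) : ℂ)) (fun _ => 0) := by
  classical
  intro τ
  have hx : Function.Injective (fun i : Fin h => ((i : ℕ) : ℂ)) := by
    intro i j hij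
    have : ((i : ℕ) : ℂ) = ((j : ℕ) : ℂ) := hij
    exact Fin.ext (by exact_mod_cast this)
  have key : ∀ b : ℕ, ∃ q : ℂ[X], (∀ s, d < s + b → q.coeff s = 0) ∧
      ∀ z a, a + b < n z → (taylor ((z : ℕ) : ℂ) q).coeff a = τ z a b := by
    intro b
    by_cases hb : ∃ z, b < n z
    · obtain ⟨z0, hz0⟩ := hb
      obtain ⟨q, hq1, hq2⟩ := lr_hermite (fun i : Fin h => ((i : ℕ) : ℂ)) hx
        (fun z => n z - b) (fun z a => τ z a b)
      have hsum : ∑ z, (n z - b) + b ≤ d + 1 := by
        refine le_trans ?_ H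
        rw [← Finset.add_sum_erase _ _ (Finset.mem_univ z0),
          ← Finset.add_sum_erase _ n (Finset.mem_univ z0)]
        have h1 : ∑ z ∈ Finset.univ.erase z0, (n z - b) ≤ ∑ z ∈ Finset.univ.erase z0, n z :=
          Finset.sum_le_sum fun z _ => Nat.sub_le _ _
        omega
      refine ⟨q, fun s hs => hq1 s (by omega), fun z a ha => hq2 z a (by omega)⟩
    · push Not at hb
      refine ⟨0, by simp, fun z a ha => ?_⟩
      have := hb z
      omega
  choose q hq1 hq2 using key
  refine ⟨fun i => (q i.1.2).coeff i.1.1, ?_⟩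
  intro z a b hab
  have hb : b ≤ d := by
    have : n z ≤ ∑ i, n i := Finset.single_le_sum (fun _ _ => Nat.zero_le _) (Finset.mem_univ z)
    omega
  rw [← hq2 b z a hab]
  exact lr_sum _ q hq1 a b hb

end Pool.Agent.Lib.MP_6b2d39_ag.Rel
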