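import Pool.Agent.Lib.MP_6b2d39_ag.Rel.Defs
import Pool.Agent.Lib.MP_6b2d39_ag.LowerBound

/-!
A system of the expected dimension gives independent conditions.
-/

open Polynomial

namespace Pool.Agent.Lib.MP_6b2d39_ag.Rel

open Transfer

theorem entry_zero_zero {R : Type*} [CommRing R] (a b s t : ℕ) :
    entry (0 : R) 0 a b s t = if s = a ∧ t = b then 1 else 0 := by
  unfold entry
  have key : ∀ s a : ℕ, (0 : R) ^ (s - a) * (s.choose a : R) = if s = a then 1 else 0 := by
    intro s a
    rcases lt_trichotomy s a with h | h | h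
    · rw [Nat.choose_eq_zero_of_lt h, if_neg (by omega)]
      simp
    · subst h
      simp
    · rw [zero_pow (by omega), if_neg (by omega), zero_mul]
  rw [key, key]
  by_cases h1 : s = a
  · by_cases h2 : t = b
    · simp [h1, h2]
    · simp [h2]
  · simp [h1]

theorem coeff_Th_origin (f : MvPolynomial (Fin 2) ℂ) (n : Fin 2 →₀ ℕ) :
    ((Th (0 : ℂ) 0 f).coeff (n 0)).coeff (n 1) = MvPolynomial.coeff n f := by
  induction f using MvPolynomial.induction_on' with
  | monomial u c =>
    rw [coeff_Th_monomial, entry_zero_zero, MvPolynomial.coeff_monomial]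
    by_cases h : u = n
    · rw [if_pos h, h, if_pos ⟨rfl, rfl⟩, one_mul]
    · rw [if_neg h, if_neg, zero_mul]
      rintro ⟨h1, h2⟩
      apply h
      ext i
      fin_cases i
      · exact h1
      · exact h2
  | add p q hp hq =>
    rw [map_add, coeff_add, coeff_add, hp, hq, MvPolynomial.coeff_add]

theorem Th_eq_trans (p : Fin 2 → ℂ) (f : MvPolynomial (Fin 2) ℂ) :
    Th (p 0) (p 1) f = Th (0 : ℂ) 0 (trans p f) := by
  have h : Th (p 0) (p 1) = (Th (0 : ℂ) 0).comp (trans p).toRingHom := by
    apply MvPolynomial.ringHom_ext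
    · intro r
      simp [Th, trans]
    · intro i
      fin_cases i <;> simp [Th, trans]
  rw [h]
  rfl

theorem reg_of_finrank {d h : ℕ} (n : Fin h → ℕ) (q : Fin h → Fin 2 → ℂ)
    (H : Module.finrank ℂ (fatSystem d n q) + ∑ i, (n i + 1).choose 2 = (d + 2).choose 2) :
    Reg d n (fun i => q i 0) (fun i => q i 1) := by
  intro τ
  set V := MvPolynomial.restrictTotalDegree (Fin 2) ℂ d with hV
  let T : V →ₗ[ℂ] (∀ i, JetIdx (n i) → ℂ) :=
    LinearMap.pi fun i => ((jet (n i)).comp (trans (q i)).toLinearMap).comp V.subtype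
  have hT : LinearMap.ker T = (fatSystem d n q).comap V.subtype := by
    ext f
    rw [LinearMap.mem_ker, Submodule.mem_comap, mem_fatSystem_iff]
    constructor
    · intro h
      exact ⟨f.2, fun i => congrFun h i⟩
    · intro h
      funext i
      exact h.2 i
  have h1 := LinearMap.finrank_range_add_finrank_ker T
  have h2 : Module.finrank ℂ (LinearMap.ker T) = Module.finrank ℂ (fatSystem d n q) := by
    rw [hT]
    exact (Submodule.comapSubtypeEquivOfLe (fatSystem_le n q)).finrank_eq
  have h3 : Module.finrank ℂ (∀ i, JetIdx (n i) → ℂ) = ∑ i, (n i + 1).choose 2 := by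
    rw [Module.finrank_pi_fintype]
    refine Finset.sum_congr rfl fun i _ => ?_
    rw [Module.finrank_fintype_fun_eq_card, card_jetIdx]
  have h4 : LinearMap.range T = ⊤ := by
    apply Submodule.eq_top_of_finrank_eq
    rw [h3]
    rw [← finrank_restrictTotalDegree d, ← hV, ← h1, h2] at H
    omega
  obtain ⟨f, hf⟩ : ∃ f : V, T f = fun i z => τ i (jetMon z 0) (jetMon z 1) := by
    have : (fun i z => τ i (jetMon z 0) (jetMon z 1)) ∈ LinearMap.range T := by
      rw [h4]
      exact Submodule.mem_top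
    exact this
  refine ⟨fun i => f.1.coeff (ex i), ?_⟩
  intro z a b hab
  have h5 := coeff_Th_eq_sum f.2 (q z 0) (q z 1) a b
  rw [← h5, Th_eq_trans]
  set x : Fin 2 →₀ ℕ := Finsupp.equivFunOnFinite.symm ![a, b] with hx
  have hx0 : x 0 = a := rfl
  have hx1 : x 1 = b := rfl
  obtain ⟨w, hw⟩ := exists_jetMon (m := n z) (x := x) (by
    rw [degree_fin_two, hx0, hx1]
    exact hab)
  have h6 := congrFun (congrFun hf z) w
  have h7 : T f z w = MvPolynomial.coeff (jetMon w) (trans (q z) f.1) := rfl
  rw [h7, hw, hx0, hx1] at h6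
  have h8 := coeff_Th_origin (trans (q z) f.1) x
  rw [hx0, hx1] at h8
  rw [h8, h6]

end Pool.Agent.Lib.MP_6b2d39_ag.Rel
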