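import Pool.Agent.Lib.MP_6b2d39_ag.Rel.Defs
import Pool.Agent.Lib.MP_6b2d39_ag.RowSupp

/-!
The row criterion `row_supp` with all first coordinates nonzero.
-/

open Polynomial

namespace Pool.Agent.Lib.MP_6b2d39_ag.Rel

/-- `exists_points` with all the coordinates nonzero: use one more row for every point, supported
on `X`, with one condition at this point. -/
theorem exists_points_ne {K : Type*} [Field K] [CharZero K] {ι : Type*} [Fintype ι]
    (B : ℕ) (E : ℕ → Finset ℕ) (c : ι → ℕ → ℕ) (hc : ∀ b < B, (E b).card ≤ ∑ i, c i b) :
    ∃ x : ι → K, Function.Injective x ∧ (∀ i, x i ≠ 0) ∧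
      ∀ b < B, ∀ f : K[X], (∀ e, e ∉ E b → f.coeff e = 0) →
      (∀ i, (X - C (x i)) ^ (c i b) ∣ f) → f = 0 := by
  classical
  let q := Fintype.equivFin ι
  have hE2 : ∀ b < B + Fintype.card ι, (if b < B then E b else ({1} : Finset ℕ)).card ≤
      ∑ i, (if b < B then c i b else if (q i : ℕ) = b - B then 1 else 0) := by
    intro b hb
    split_ifs with h
    · exact hc b h
    · rw [Finset.card_singleton]
      have h1 : (q (q.symm ⟨b - B, by omega⟩) : ℕ) = b - B := by
        rw [Equiv.apply_symm_apply]
      calc 1 = (if (q (q.symm ⟨b - B, by omega⟩) : ℕ) = b - B then 1 else 0) := by rw [if_pos h1]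
        _ ≤ _ := Finset.single_le_sum (f := fun i => if (q i : ℕ) = b - B then 1 else 0)
            (fun _ _ => Nat.zero_le _) (Finset.mem_univ _)
  obtain ⟨x, hx, hxx⟩ := exists_points (K := K) (B + Fintype.card ι)
    (fun b => if b < B then E b else {1})
    (fun i b => if b < B then c i b else if (q i : ℕ) = b - B then 1 else 0) hE2
  refine ⟨x, hx, ?_, ?_⟩
  · intro i hi
    have h1 : ¬ B + (q i : ℕ) < B := by omega
    have h2 : (X : K[X]) = 0 := by
      apply hxx (B + (q i : ℕ)) (by have := (q i).2; omega)
      · intro e he
        simp only [if_neg h1, Finset.mem_singleton] at he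
        rw [coeff_X, if_neg (by omega)]
      · intro j
        simp only [if_neg h1]
        split_ifs with hj
        · have h3 : j = i := by
            apply q.injective
            apply Fin.ext
            omega
          rw [h3, hi, C_0, sub_zero, pow_one]
        · rw [pow_zero]
          exact one_dvd _
    exact X_ne_zero h2
  · intro b hb f hf hfx
    apply hxx b (by omega) f
    · intro e he
      simp only [if_pos hb] at he
      exact hf e he
    · intro i
      simp only [if_pos hb]
      exact hfx i

theorem row_suppN {k : Type} [Field k] [CharZero k] {ι : Type} [Fintype ι] (B : ℕ)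
    (E : ℕ → Finset ℕ) (hE : ∀ b, B ≤ b → E b = ∅) (m : ι → ℕ) (w : ℕ → ℕ) (v : ι → ℕ)
    (R : ι → ℕ → ℕ) (hinj : ∀ i, ∀ b < B, ∀ b' < B, R i b = R i b' → b = b')
    (hord : ∀ i, ∀ b < B, ∀ b' < B, R i b < R i b' → w b + v i * b < w b' + v i * b')
    (hcap : ∀ b < B, (E b).card ≤ ∑ i, (m i - R i b)) : GoodN k E m := by
  obtain ⟨x, hx, hx0, hxx⟩ := exists_points_ne (K := k) B E (fun i b => m i - R i b) hcap
  have hψinj : Function.Injective (algebraMap k[X] (FractionRing k[X])) :=
    IsFractionRing.injective _ _
  have hCinj : Function.Injective (C : k →+* k[X]) := C_injective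
  set ψ : k[X] →+* FractionRing k[X] := algebraMap k[X] (FractionRing k[X]) with hψ
  have ht0 : ψ (tt k) ≠ 0 := by
    intro h0
    exact X_ne_zero (hψinj (by rw [h0, map_zero]))
  refine ⟨FractionRing k[X], inferInstance, ψ.comp C, fun i => ψ (C (x i)),
    fun i => ψ (tt k ^ v i), ?_, ?_, ?_, ?_⟩
  · intro a b hab
    exact hx (hCinj (hψinj hab))
  · intro i h0
    apply hx0 i
    apply hCinj
    apply hψinj
    rw [map_zero, map_zero]
    exact h0
  · intro i h0
    have h1 : ψ (tt k) ^ v i = 0 := by
      rw [← map_pow]
      exact h0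
    exact pow_ne_zero _ ht0 h1
  · intro f hf hc
    by_contra hne
    let ft : (FractionRing k[X])[X][X] := rW (fun b => (ψ (tt k) ^ w b)⁻¹) f
    have hft : ft ≠ 0 := by
      intro h0
      apply hne
      ext a b
      have h4 : (ft.coeff a).coeff b = 0 := by rw [h0]; simp
      rw [coeff_rW] at h4
      rcases mul_eq_zero.1 h4 with h5 | h5
      · exact absurd h5 (inv_ne_zero (pow_ne_zero _ ht0))
      · rw [h5]; simp
    obtain ⟨c0, hc0, g, hg, hg0⟩ := exists_primitive (K := k) ft hft
    let F : k[X][X][X] := rW (fun b => tt k ^ w b) g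
    have hF : F.map (mapRingHom ψ) = C (C c0) * f := by
      ext a b
      rw [coeff_map, coe_mapRingHom, coeff_map, coeff_rW, map_mul, map_pow, coeff_C_mul,
        coeff_C_mul]
      have h4 : ψ ((g.coeff a).coeff b) = c0 * ((ψ (tt k) ^ w b)⁻¹ * (f.coeff a).coeff b) := by
        have h5 : ((g.map (mapRingHom ψ)).coeff a).coeff b = ψ ((g.coeff a).coeff b) := by
          rw [coeff_map, coe_mapRingHom, coeff_map]
        rw [← h5, hg, coeff_C_mul, coeff_C_mul, coeff_rW]
      rw [h4]
      have h6 := pow_ne_zero (w b) ht0
      field_simp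
    have hFC : ∀ i, Cond (Finset.Icc 1 (m i)) (C (x i)) (tt k ^ v i) F := by
      intro i
      apply Cond.of_map hψinj
      rw [hF]
      exact (hc i).C_mul c0
    have hgS : SuppIn E g := by
      intro a b hab
      have h4 : ψ (((F.coeff a)).coeff b) = 0 := by
        have h5 : ((F.map (mapRingHom ψ)).coeff a).coeff b = ψ ((F.coeff a).coeff b) := by
          rw [coeff_map, coe_mapRingHom, coeff_map]
        rw [← h5, hF, coeff_C_mul, coeff_C_mul, hf a b hab, mul_zero]
      have h6 : (F.coeff a).coeff b = 0 := hψinj (by rw [h4, map_zero])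
      rw [coeff_rW] at h6
      rcases mul_eq_zero.1 h6 with h5 | h5
      · exact absurd h5 (pow_ne_zero _ X_ne_zero)
      · exact h5
    -- Taylor coefficients
    have hTF : ∀ i a b, ((taylor (C (C (x i))) F).coeff a).coeff b =
        tt k ^ w b * ((taylor (C (C (x i))) g).coeff a).coeff b := by
      intro i a b
      exact taylor_rW _ _ _ _ _
    have hTB : ∀ i a b, B ≤ b → ((taylor (C (C (x i))) g).coeff a).coeff b = 0 := by
      intro i a b hb
      have h4 : row b g = 0 := by
        apply Polynomial.ext
        intro e
        rw [coeff_row, hgS e b (by rw [hE b hb]; exact Finset.notMem_empty _), coeff_zero]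
      rw [← taylor_row, h4, map_zero, coeff_zero]
    set g0 : k[X][X] := g.map (mapRingHom (sp k)) with hg0def
    have hg0S : SuppIn E g0 := by
      intro a b hab
      rw [hg0def, coeff_map, coe_mapRingHom, coeff_map, hgS a b hab, map_zero]
    have hTg0 : ∀ i a b, ((taylor (C (x i)) g0).coeff a).coeff b =
        sp k (((taylor (C (C (x i))) g).coeff a).coeff b) := by
      intro i a b
      have h11 : taylor (C (x i)) g0 =
          (taylor (C (C (x i))) g).map (mapRingHom (sp k)) := by
        rw [map_taylor]; simp [hg0def]
      rw [h11, coeff_map, coe_mapRingHom, coeff_map]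
    -- the vanishing of the Taylor coefficients of the rows
    have hnew : ∀ i b, b < B → ∀ a, a < m i - R i b →
        ((taylor (C (x i)) g0).coeff a).coeff b = 0 := by
      intro i b hb a ha
      rw [hTg0, sp_eq_zero_iff]
      set P : k[X][X] := (taylor (C (C (x i))) F).coeff a with hP
      have h4 : (X - C (tt k ^ v i)) ^ (m i - a) ∣ P := by
        have := hFC i a
        rwa [colH_Icc_one] at this
      set P2 : k[X][X] := P.comp (C (tt k ^ v i) * X) with hP2
      have hP2c : ∀ b, P2.coeff b = tt k ^ (v i * b + w b) *
          ((taylor (C (C (x i))) g).coeff a).coeff b := by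
        intro b
        rw [hP2, comp_C_mul_X_coeff, hP, hTF, ← pow_mul, pow_add]
        ring
      have h5 : (X - C 1) ^ (m i - a) ∣ P2 := by
        obtain ⟨M, hM⟩ := h4
        rw [hP2, hM, mul_comp, pow_comp, sub_comp, X_comp, C_comp]
        have : (C (tt k ^ v i) * X - C (tt k ^ v i) : k[X][X]) =
            (X - C 1) * C (tt k ^ v i) := by
          rw [C_1]; ring
        rw [this, mul_pow, mul_assoc]
        exact dvd_mul_right _ _
      have h6 : C (tt k) ^ (w b + v i * b + 1) ∣ P2 := by
        apply val_lift (m i - a) ((Finset.range B).filter (fun b' => R i b' ≤ R i b)) ?_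
          (fun b' => if b' < B then v i * b' + w b' else w b + v i * b + 1) _ P2
        · intro b'
          split_ifs with hb'
          · rw [hP2c]
            exact dvd_mul_right _ _
          · rw [hP2c, hTB i a b' (by omega), mul_zero]
            exact dvd_zero _
        · intro b' hb'
          split_ifs with hb''
          · rw [Finset.mem_filter, not_and, not_le] at hb'
            have h7 := hord i b hb b' hb'' (hb' (Finset.mem_range.2 hb''))
            omega
          · omega
        · exact h5
        · have h7 : ((Finset.range B).filter (fun b' => R i b' ≤ R i b)).card ≤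
              (Finset.range (R i b + 1)).card := by
            apply Finset.card_le_card_of_injOn (R i)
            · intro b' hb'
              simp only [Finset.coe_filter, Finset.mem_range, Set.mem_ofPred_eq] at hb'
              simp only [Finset.coe_range, Set.mem_Iio]
              omega
            · intro b' hb' b'' hb'' h
              simp only [Finset.coe_filter, Finset.mem_range, Set.mem_ofPred_eq] at hb' hb''
              exact hinj i b' hb'.1 b'' hb''.1 h
          rw [Finset.card_range] at h7
          omega
      rw [← C_pow, C_dvd_iff_dvd_coeff] at h6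
      have h7 := h6 b
      rw [hP2c, add_comm (v i * b) (w b), pow_succ] at h7
      exact (mul_dvd_mul_iff_left (pow_ne_zero _ X_ne_zero)).1 h7
    have hrow : ∀ b, b < B → row b g0 = 0 := by
      intro b hb
      apply hxx b hb
      · intro e he
        rw [coeff_row]
        exact hg0S e b he
      · intro i
        rw [X_sub_C_pow_dvd_iff, X_pow_dvd_iff]
        intro a ha
        rw [← taylor_apply, taylor_row]
        exact hnew i b hb a ha
    apply hg0
    ext a b
    rw [coeff_zero, coeff_zero]
    rcases Nat.lt_or_ge b B with hb | hb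
    · rw [← coeff_row, hrow b hb, coeff_zero]
    · exact hg0S a b (by rw [hE b hb]; exact Finset.notMem_empty _)

end Pool.Agent.Lib.MP_6b2d39_ag.Rel
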