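import Pool.Agent.Lib.MP_6b2d39_ag.Rel.Defs

/-!
Semicontinuity (the proof is that of `Transfer.transfer_aux`).
-/

open Polynomial

namespace Pool.Agent.Lib.MP_6b2d39_ag.Rel

open Transfer in
theorem transfer0 {d h u : ℕ} (m : Fin h → ℕ)
    (H : Good0 (ι := Fin h ⊕ Fin u) ℂ (d + 1) (Sum.elim m (fun _ => 1))) :
    ∃ Φ : MvPolynomial (Fin h × Fin 2) ℂ, Φ ≠ 0 ∧ ∀ p : Fin h → Fin 2 → ℂ,
      MvPolynomial.eval (fun q => p q.1 q.2) Φ ≠ 0 →
        Module.finrank ℂ (fatSystem d m p) ≤ u := by
  obtain ⟨K, _, φ, x, y, H⟩ := H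
  -- a nonzero minor at the point `(x, y)`
  obtain ⟨a, ha⟩ := exists_minor (K := K) (I := Ix d) (J := Jx u m) (row m x y) (by
    intro c hc
    have h0 : ofCoeffs c = 0 := by
      apply H _ (inV_ofCoeffs c)
      intro v
      apply cond_ofCoeffs
      intro a b hab
      exact hc ⟨(v, a, b), hab⟩
    ext i
    rw [← ofCoeffs_coeff_self c i, h0]
    simp)
  -- the universal minor
  let Xu : Fin h ⊕ Fin u → MvPolynomial ((Fin h ⊕ Fin u) × Fin 2) ℂ :=
    fun v => MvPolynomial.X (v, 0)
  let Yu : Fin h ⊕ Fin u → MvPolynomial ((Fin h ⊕ Fin u) × Fin 2) ℂ :=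
    fun v => MvPolynomial.X (v, 1)
  let Ψ : MvPolynomial ((Fin h ⊕ Fin u) × Fin 2) ℂ :=
    (Matrix.of fun i i' => row m Xu Yu (a i) i').det
  have hΨ : Ψ ≠ 0 := by
    intro h0
    apply ha
    let ev : MvPolynomial ((Fin h ⊕ Fin u) × Fin 2) ℂ →+* K :=
      MvPolynomial.eval₂Hom φ (fun t => if t.2 = 0 then x t.1 else y t.1)
    have h1 := map_minor m ev Xu Yu a
    have hx : (fun v => ev (Xu v)) = x := by
      ext v
      simp [ev, Xu]
    have hy : (fun v => ev (Yu v)) = y := by
      ext v
      simp [ev, Yu]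
    rw [hx, hy] at h1
    rw [← h1]
    change ev Ψ = 0
    rw [h0, map_zero]
  obtain ⟨q, hq⟩ : ∃ q, MvPolynomial.eval q Ψ ≠ 0 := by
    by_contra hne
    push Not at hne
    exact hΨ (MvPolynomial.funext fun q => by rw [hne q, map_zero])
  refine ⟨MvPolynomial.aeval (sub1 q) Ψ, ?_, ?_⟩
  · intro h0
    apply hq
    have h1 : ((MvPolynomial.eval (fun t : Fin h × Fin 2 => q (Sum.inl t.1, t.2))).comp
        (MvPolynomial.aeval (R := ℂ) (sub1 q) :
          MvPolynomial ((Fin h ⊕ Fin u) × Fin 2) ℂ →ₐ[ℂ] _).toRingHom) = MvPolynomial.eval q := by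
      apply MvPolynomial.ringHom_ext
      · intro r
        simp
      · rintro ⟨v | v, i⟩
        · simp [sub1]
        · simp [sub1]
    rw [← h1]
    change MvPolynomial.eval _ (MvPolynomial.aeval (sub1 q) Ψ) = 0
    rw [h0, map_zero]
  · intro p hp
    let q' : (Fin h ⊕ Fin u) × Fin 2 → ℂ := fun t =>
      Sum.elim (fun i => p i t.2) (fun j => q (Sum.inr j, t.2)) t.1
    have h1 : ((MvPolynomial.eval (fun t : Fin h × Fin 2 => p t.1 t.2)).comp
        (MvPolynomial.aeval (R := ℂ) (sub1 q) :
          MvPolynomial ((Fin h ⊕ Fin u) × Fin 2) ℂ →ₐ[ℂ] _).toRingHom) = MvPolynomial.eval q' := by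
      apply MvPolynomial.ringHom_ext
      · intro r
        simp
      · rintro ⟨v | v, i⟩
        · simp [sub1, q']
        · simp [sub1, q']
    have h2 : MvPolynomial.eval q' Ψ ≠ 0 := by
      rw [← h1]
      exact hp
    rw [map_minor m (MvPolynomial.eval q') Xu Yu a] at h2
    -- evaluation at the simple points is injective on the system
    let E : fatSystem d m p →ₗ[ℂ] (Fin u → ℂ) :=
      { toFun := fun f j => MvPolynomial.eval (fun i => q (Sum.inr j, i)) f.1
        map_add' := fun f g => by ext; simp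
        map_smul' := fun c f => by ext; simp [MvPolynomial.smul_eval] }
    have hE : Function.Injective E := by
      rw [injective_iff_map_eq_zero]
      rintro ⟨f, hf⟩ h0
      rw [fatSystem, Submodule.mem_inf, Submodule.mem_iInf] at hf
      obtain ⟨hfd, hfm⟩ := hf
      have hc := eq_zero_of_minor _ a h2 (fun i => f.coeff (ex i)) (by
        rintro ⟨⟨v, a, b⟩, hab⟩
        have h3 := coeff_Th_eq_sum hfd (q' (v, 0)) (q' (v, 1)) a b
        have h4 : ∑ i : Ix d, row m (fun v => MvPolynomial.eval q' (Xu v))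
            (fun v => MvPolynomial.eval q' (Yu v)) ⟨(v, a, b), hab⟩ i * f.coeff (ex i) =
            ((Th (q' (v, 0)) (q' (v, 1)) f).coeff a).coeff b := by
          rw [h3]
          refine Finset.sum_congr rfl fun i _ => ?_
          simp only [row, Xu, Yu, MvPolynomial.eval_X]
        rw [h4]
        rcases v with v | v
        · have h5 := hfm v
          have h6 : p v = ![p v 0, p v 1] := by
            ext i
            fin_cases i <;> rfl
          rw [Submodule.restrictScalars_mem, h6] at h5
          exact Th_mem_wt _ _ _ h5 a b hab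
        · have ha0 : a = 0 := by
            simp only [mult, Sum.elim_inr] at hab
            omega
          have hb0 : b = 0 := by
            simp only [mult, Sum.elim_inr] at hab
            omega
          subst ha0 hb0
          rw [coeff_Th_zero]
          have h7 := congrFun h0 v
          have h8 : ![q' (Sum.inr v, 0), q' (Sum.inr v, 1)] = fun i => q (Sum.inr v, i) := by
            ext i
            fin_cases i <;> rfl
          rw [h8]
          exact h7)
      apply Subtype.ext
      change f = 0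
      rw [eq_sum_monomial hfd]
      refine Finset.sum_eq_zero fun i _ => ?_
      rw [show f.coeff (ex i) = 0 from congrFun hc i, map_zero]
    have := LinearMap.finrank_le_finrank_of_injective hE
    simpa using this

end Pool.Agent.Lib.MP_6b2d39_ag.Rel
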