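import Pool.Agent.Lib.MP_6b2d39_ag.Rel.States2
import Pool.Agent.Lib.MP_6b2d39_ag.Rel.RowN
import Pool.Agent.Lib.MP_6b2d39_ag.Rel.Column
import Pool.Agent.Lib.MP_6b2d39_ag.Rel.Lead
import Pool.Agent.Lib.MP_6b2d39_ag.Rel.Big
import Pool.Agent.Lib.MP_6b2d39_ag.Rel.Count
import Pool.Agent.Lib.MP_6b2d39_ag.Rel.Transfer0
import Pool.Agent.Lib.MP_6b2d39_ag.Rel.RegSystem
import Pool.Agent.Lib.MP_6b2d39_ag.Rel.LineReg
import Pool.Agent.Lib.MP_6b2d39_ag.General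

/-!
Assembly of the relative theorem.
-/

open Polynomial

namespace Pool.Agent.Lib.MP_6b2d39_ag.Rel

theorem goodP_of_rows {k : Type} [Field k] [CharZero k] {ι : Type} [Fintype ι] [DecidableEq ι]
    {d d' γ M : ℕ} (hM1 : 1 ≤ M) (hγ : 18 * M ≤ γ * (γ + 3)) (P : Finset (ℕ × ℕ)) (hP : P ⊆ Tri d)
    (hup : ∀ i j, (i, j) ∈ P → i + j + 1 ≤ d → (i + 1, j) ∈ P ∧ (i, j + 1) ∈ P)
    (hbig : ∀ i j, d' < i + j → i + j ≤ d → (i, j) ∈ P)
    (hd : d' + (2 * M + 1) * γ + 1 ≤ d) (m : ι → ℕ) (hM : ∀ i, m i ≤ M)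
    (htot : P.card ≤ ∑ i, (m i + 1).choose 2) : GoodP k P m := by
  have hγ2 : 2 ≤ γ := by
    by_contra hcon
    have : γ = 0 ∨ γ = 1 := by omega
    rcases this with h | h <;> subst h <;> omega
  obtain ⟨B, hB, hB0, hB2, hB1, hBs⟩ := count_rows (M := M) (A := 9 * M - 1) hγ2 P hP hup hbig hd
    (by
      have : (γ + 1) * (γ + 2) = γ * (γ + 3) + 2 := by ring
      omega)
  obtain ⟨t, i, hti, hrow⟩ := states_rows m hM1 hM hB (A := 9 * M - 1) (by omega)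
    (fun b => (rowsP d (γ - 1) P b).card) hB1 hB2 (by rw [hBs]; exact htot)
  obtain ⟨w, v, hwv⟩ := exists_weights B
  apply column_step (β := γ - 1) P hP m
  apply row_suppN B _ hB0 m w (fun j => v (t j) (i j)) (fun j b => rk (t j) (i j) b)
  · intro j b _ b' _ h
    exact rk_inj (hti j).2 h
  · intro j b hb b' hb' h
    exact hwv (t j) (i j) (hti j).1 (hti j).2 b hb b' hb' h
  · exact hrow

theorem sum_ite_choose {ι : Type} [Fintype ι] [DecidableEq ι] (J : Finset ι) (m : ι → ℕ) :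
    ∑ i, ((if i ∈ J then m i else 0) + 1).choose 2 = ∑ i ∈ J, (m i + 1).choose 2 := by
  rw [← Finset.sum_filter_add_sum_filter_not Finset.univ (fun i => i ∈ J)]
  have h1 : ∑ i ∈ Finset.univ.filter (fun i => i ∉ J), ((if i ∈ J then m i else 0) + 1).choose 2
      = 0 := by
    apply Finset.sum_eq_zero
    intro i hi
    rw [Finset.mem_filter] at hi
    rw [if_neg hi.2]
    rfl
  rw [h1, add_zero]
  have h2 : Finset.univ.filter (fun i => i ∈ J) = J := by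
    ext i
    simp
  rw [h2]
  apply Finset.sum_congr rfl
  intro i hi
  rw [if_pos hi]

theorem leadSet_subset {k : Type} [Field k] {ι : Type} (d : ℕ) (n : ι → ℕ) (qx qy : ι → k) :
    leadSet d n qx qy ⊆ Tri d := by
  classical
  exact Finset.filter_subset _ _

theorem good0_main {k : Type} [Field k] [CharZero k] {ι : Type} [Fintype ι] [DecidableEq ι]
    {d d' γ M : ℕ} (hM1 : 1 ≤ M) (hγ : 18 * M ≤ γ * (γ + 3))
    (hd : d' + (2 * M + 1) * γ + 1 ≤ d) (J : Finset ι) (m : ι → ℕ) (hM : ∀ i, i ∉ J → m i ≤ M)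
    (qx qy : ι → k) (hreg : Reg d' (fun i => if i ∈ J then m i else 0) qx qy)
    (htot : (d + 2).choose 2 ≤ ∑ i, (m i + 1).choose 2) : Good0 k (d + 1) m := by
  apply big_step d J m qx qy
  have h1 := lead_card (d := d) hreg (by omega)
  rw [sum_ite_choose] at h1
  apply goodP_of_rows hM1 hγ _ (leadSet_subset _ _ _ _) (fun i j h hij => lead_up h hij)
    (fun i j h1 h2 => lead_big hreg h1 h2) hd
  · intro i
    split_ifs with h
    · exact Nat.zero_le _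
    · exact hM i h
  · have h2 : ∑ i, ((if i ∈ J then 0 else m i) + 1).choose 2 + ∑ i ∈ J, (m i + 1).choose 2 =
        ∑ i, (m i + 1).choose 2 := by
      rw [← sum_ite_choose J m, ← Finset.sum_add_distrib]
      apply Finset.sum_congr rfl
      intro i _
      split_ifs <;> simp
    omega

theorem reg_sum {k : Type} [Field k] {d h u : ℕ} (m : Fin h → ℕ) (J : Finset (Fin h))
    (qx qy : Fin h → k) (hreg : Reg d (fun i => if i ∈ J then m i else 0) qx qy) :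
    Reg (ι := Fin h ⊕ Fin u) d
      (fun i => if i ∈ J.map ⟨Sum.inl, Sum.inl_injective⟩ then
        (Sum.elim m (fun _ => 1) : Fin h ⊕ Fin u → ℕ) i else 0)
      (Sum.elim qx (fun _ => 0)) (Sum.elim qy (fun _ => 0)) := by
  intro τ
  obtain ⟨c, hc⟩ := hreg (fun z => τ (Sum.inl z))
  refine ⟨c, ?_⟩
  rintro (z | z) a b hab
  · apply hc
    simpa using hab
  · simp at hab

theorem general_of_good0 {d h : ℕ} (m : Fin h → ℕ)
    (H : ∀ u, (d + 2).choose 2 ≤ ∑ i, (m i + 1).choose 2 + u →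
      Good0 (ι := Fin h ⊕ Fin u) ℂ (d + 1) (Sum.elim m (fun _ => 1))) :
    ∃ Φ : MvPolynomial (Fin h × Fin 2) ℂ, Φ ≠ 0 ∧ ∀ p : Fin h → Fin 2 → ℂ,
      MvPolynomial.eval (fun q => p q.1 q.2) Φ ≠ 0 →
        (Module.finrank ℂ (fatSystem d m p) : ℤ) =
          max (((d + 2).choose 2 : ℤ) - ∑ i, ((m i + 1).choose 2 : ℤ)) 0 := by
  obtain ⟨Φ, hΦ, hΦ2⟩ := transfer0 m (H ((d + 2).choose 2 - ∑ i, (m i + 1).choose 2) (by omega))
  refine ⟨Φ, hΦ, ?_⟩
  intro p hp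
  have h1 := hΦ2 p hp
  have h2 := lower_bound (d := d) m p
  have h3 : (∑ i, ((m i + 1).choose 2 : ℤ)) = ((∑ i, (m i + 1).choose 2 : ℕ) : ℤ) := by
    push_cast
    rfl
  rw [h3]
  omega

theorem main_rel {d d' γ M h : ℕ} (hM1 : 1 ≤ M) (hγ : 18 * M ≤ γ * (γ + 3))
    (hd : d' + (2 * M + 1) * γ + 1 ≤ d) (J : Finset (Fin h)) (m : Fin h → ℕ)
    (hM : ∀ i, i ∉ J → m i ≤ M) (qx qy : Fin h → ℂ)
    (hreg : Reg d' (fun i => if i ∈ J then m i else 0) qx qy) :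
    ∃ Φ : MvPolynomial (Fin h × Fin 2) ℂ, Φ ≠ 0 ∧ ∀ p : Fin h → Fin 2 → ℂ,
      MvPolynomial.eval (fun q => p q.1 q.2) Φ ≠ 0 →
        (Module.finrank ℂ (fatSystem d m p) : ℤ) =
          max (((d + 2).choose 2 : ℤ) - ∑ i, ((m i + 1).choose 2 : ℤ)) 0 := by
  apply general_of_good0
  intro u hu
  apply good0_main hM1 hγ hd (J.map ⟨Sum.inl, Sum.inl_injective⟩) _ _ _ _ (reg_sum m J qx qy hreg)
  · rw [Fintype.sum_sum_type]
    simpa using hu
  · rintro (i | i) hi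
    · apply hM
      simpa using hi
    · exact hM1

/-- regularity from a numerical condition -/
theorem exists_reg_of_window {d h μ : ℕ} (n : Fin h → ℕ) (hμ : 1 ≤ μ) (hn : ∀ i, n i ≤ μ)
    (hv : ∑ i, (n i + 1).choose 2 + (μ - 1) ^ 2 ≤ (d + 2).choose 2) :
    ∃ q : Fin h → Fin 2 → ℂ, Module.finrank ℂ (fatSystem d n q) + ∑ i, (n i + 1).choose 2 =
      (d + 2).choose 2 := by
  obtain ⟨u, hu⟩ : ∃ u, ∑ i, (n i + 1).choose 2 + u = (d + 2).choose 2 :=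
    ⟨(d + 2).choose 2 - ∑ i, (n i + 1).choose 2, by omega⟩
  obtain ⟨Φ, hΦ, hΦ2⟩ := general_nonempty_side n u hu
    (good_nonempty_side d μ hμ n (fun i hi => absurd hi (by have := hn i; omega)) u hu (by omega))
  obtain ⟨q, hq⟩ : ∃ q, MvPolynomial.eval q Φ ≠ 0 := by
    by_contra hne
    push Not at hne
    exact hΦ (MvPolynomial.funext fun q => by rw [hne q, map_zero])
  refine ⟨fun i j => q (i, j), ?_⟩
  have h1 := hΦ2 (fun i j => q (i, j)) hq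
  have h3 : (∑ i, ((n i + 1).choose 2 : ℤ)) = ((∑ i, (n i + 1).choose 2 : ℕ) : ℤ) := by
    push_cast
    rfl
  rw [h3] at h1
  omega

theorem relative {d d' γ M h : ℕ} (hM1 : 1 ≤ M) (hγ : 18 * M ≤ γ * (γ + 3))
    (hd : d' + (2 * M + 1) * γ + 1 ≤ d) (J : Finset (Fin h)) (m : Fin h → ℕ)
    (hM : ∀ i, i ∉ J → m i ≤ M)
    (hJ : (∃ q : Fin h → Fin 2 → ℂ, Module.finrank ℂ (fatSystem d' (fun i => if i ∈ J then m i else 0) q)
        + ∑ i ∈ J, (m i + 1).choose 2 = (d' + 2).choose 2) ∨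
      ∑ i ∈ J, m i ≤ d' + 1 ∨
      ∃ μ, 1 ≤ μ ∧ (∀ i ∈ J, m i ≤ μ) ∧
        ∑ i ∈ J, (m i + 1).choose 2 + (μ - 1) ^ 2 ≤ (d' + 2).choose 2) :
    ∃ Φ : MvPolynomial (Fin h × Fin 2) ℂ, Φ ≠ 0 ∧ ∀ p : Fin h → Fin 2 → ℂ,
      MvPolynomial.eval (fun q => p q.1 q.2) Φ ≠ 0 →
        (Module.finrank ℂ (fatSystem d m p) : ℤ) =
          max (((d + 2).choose 2 : ℤ) - ∑ i, ((m i + 1).choose 2 : ℤ)) 0 := by
  have key : (∃ q : Fin h → Fin 2 → ℂ,
      Module.finrank ℂ (fatSystem d' (fun i => if i ∈ J then m i else 0) q)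
        + ∑ i ∈ J, (m i + 1).choose 2 = (d' + 2).choose 2) →
      ∃ Φ : MvPolynomial (Fin h × Fin 2) ℂ, Φ ≠ 0 ∧ ∀ p : Fin h → Fin 2 → ℂ,
        MvPolynomial.eval (fun q => p q.1 q.2) Φ ≠ 0 →
          (Module.finrank ℂ (fatSystem d m p) : ℤ) =
            max (((d + 2).choose 2 : ℤ) - ∑ i, ((m i + 1).choose 2 : ℤ)) 0 := by
    rintro ⟨q, hq⟩
    rw [← sum_ite_choose] at hq
    exact main_rel hM1 hγ hd J m hM _ _ (reg_of_finrank _ q hq)
  rcases hJ with hJ | hJ | ⟨μ, hμ, hJμ, hJ⟩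
  · exact key hJ
  · apply main_rel hM1 hγ hd J m hM _ _ (line_reg _ ?_)
    rwa [Finset.sum_ite_mem, Finset.univ_inter]
  · apply key
    rw [← sum_ite_choose] at hJ ⊢
    apply exists_reg_of_window _ hμ _ hJ
    intro i
    split_ifs with hi
    · exact hJμ i hi
    · exact Nat.zero_le _

end Pool.Agent.Lib.MP_6b2d39_ag.Rel
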