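import Pool.Agent.Lib.MP_6b2d39_ag.StatesAux
import Pool.Agent.Lib.MP_6b2d39_ag.Rel.Core2

/-!
Choice of the states of all points for given row sizes.
-/

namespace Pool.Agent.Lib.MP_6b2d39_ag.Rel

/-- the greedy arrangement for an arbitrary finite set of points -/
theorem core2_finset {ι : Type} [DecidableEq ι] (m : ι → ℕ) (S : Finset ι)
    {M B A A1 : ℕ} (hM : 1 ≤ M) (hB : 2 * M + 2 ≤ B) (hA : 9 * M ≤ A + 1)
    (hm : ∀ j, m j ≤ M) (s : ℕ → ℕ)
    (h1 : ∀ b < M, s b = s (b + 1) + A1) (h2 : ∀ b, b + 3 ≤ B → s (b + 1) + A ≤ s b)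
    (h3 : s (B - 1) + (M - 1) ≤ s (B - 2))
    (hs : ∑ b ∈ Finset.range B, s b = ∑ j ∈ S, (m j + 1).choose 2) :
    ∃ t i : ι → ℕ, (∀ j ∈ S, t j < B ∧ i j ≤ t j) ∧
      ∀ b < B, ∑ j ∈ S, (m j - rk (t j) (i j) b) = s b := by
  obtain ⟨n, ε, hε⟩ := exists_sorted m S
  set μ : ℕ → ℕ := fun p => if h : p < n then m (ε ⟨p, h⟩) else 0 with hμ
  have hanti : Antitone μ := by
    intro p q hpq
    simp only [hμ]
    by_cases hq : q < n
    · rw [dif_pos hq, dif_pos (lt_of_le_of_lt hpq hq)]
      exact hε ⟨p, lt_of_le_of_lt hpq hq⟩ ⟨q, hq⟩ hpq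
    · rw [dif_neg hq]
      exact Nat.zero_le _
  have hle : ∀ p, μ p ≤ M := by
    intro p
    simp only [hμ]
    split_ifs
    · exact hm _
    · exact Nat.zero_le _
  have hμε : ∀ p : Fin n, μ p = m (ε p) := by
    intro p
    simp only [hμ]
    rw [dif_pos p.2]
  -- sums over `S` as sums over `range n`
  have hsum : ∀ g : ℕ → ℕ → ℕ, ∑ p ∈ Finset.range n, g p (μ p) =
      ∑ j : S, g (ε.symm j) (m j) := by
    intro g
    rw [← Fin.sum_univ_eq_sum_range (fun p => g p (μ p)) n, ← Equiv.sum_comp ε.symm]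
    apply Finset.sum_congr rfl
    intro j _
    rw [hμε, Equiv.apply_symm_apply]
  obtain ⟨t, i, hti, hrow⟩ := core2 (n := n) hM hB hA μ hanti hle s h1 h2 h3 (by
    rw [hs, hsum (fun _ x => (x + 1).choose 2), Finset.sum_coe_sort S (fun j => (m j + 1).choose 2)])
  refine ⟨fun j => if h : j ∈ S then t (ε.symm ⟨j, h⟩) else 0,
    fun j => if h : j ∈ S then i (ε.symm ⟨j, h⟩) else 0, ?_, ?_⟩
  · intro j hj
    simp only [dif_pos hj]
    exact hti _ (Fin.is_lt _)
  · intro b hb
    rw [← hrow b hb, hsum (fun p x => x - rk (t p) (i p) b), ← Finset.sum_coe_sort S]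
    apply Finset.sum_congr rfl
    intro j _
    simp only [dif_pos j.2]

theorem states_rows {ι : Type} [Fintype ι] [DecidableEq ι] (m : ι → ℕ) {M B A A1 : ℕ}
    (hM1 : 1 ≤ M) (hM : ∀ i, m i ≤ M) (hB : 2 * M + 2 ≤ B) (hA : 9 * M ≤ A + 1) (s : ℕ → ℕ)
    (h1 : ∀ b < M, s b = s (b + 1) + A1) (h2 : ∀ b, b + 2 ≤ B → s (b + 1) + A ≤ s b)
    (htot : ∑ b ∈ Finset.range B, s b ≤ ∑ i, (m i + 1).choose 2) :
    ∃ t i : ι → ℕ, (∀ j, t j < B ∧ i j ≤ t j) ∧
      ∀ b < B, s b ≤ ∑ j, (m j - rk (t j) (i j) b) := by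
  classical
  set T := ∑ b ∈ Finset.range B, s b with hT
  have hT1 : 1 ≤ T := by
    have e1 : s (B - 2) ≤ T :=
      Finset.single_le_sum (f := s) (fun _ _ => Nat.zero_le _) (Finset.mem_range.2 (by omega))
    have e2 := h2 (B - 2) (by omega)
    omega
  -- the points which are used completely
  obtain ⟨S, hS, hSmax⟩ : ∃ S : Finset ι, ∑ j ∈ S, (m j + 1).choose 2 < T ∧
      ∀ j ∉ S, T ≤ ∑ k ∈ insert j S, (m k + 1).choose 2 := by
    obtain ⟨S, hS, hmax⟩ := Finset.exists_max_image
      ((Finset.univ : Finset (Finset ι)).filter (fun S => ∑ j ∈ S, (m j + 1).choose 2 < T))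
      Finset.card ⟨∅, by simp; omega⟩
    rw [Finset.mem_filter] at hS
    refine ⟨S, hS.2, ?_⟩
    intro j hj
    by_contra hcon
    rw [not_le] at hcon
    have h1 := hmax (insert j S) (by rw [Finset.mem_filter]; exact ⟨Finset.mem_univ _, hcon⟩)
    rw [Finset.card_insert_of_notMem hj] at h1
    omega
  obtain ⟨j0, hj0⟩ : ∃ j, j ∉ S := by
    by_contra hcon
    push Not at hcon
    have h1 : S = Finset.univ := Finset.eq_univ_iff_forall.mpr hcon
    rw [h1] at hS
    omega
  have hj0T := hSmax j0 hj0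
  rw [Finset.sum_insert hj0] at hj0T
  set y := T - ∑ j ∈ S, (m j + 1).choose 2 with hy
  obtain ⟨σ, hσsum, hσlast, hσle, hσmono, hσ0⟩ := special_slices (B := B) (m := m j0) (y := y)
    (by have := hM j0; omega) (by omega)
  have hσM : ∀ b, b < B → σ b ≤ M := fun b hb => (hσle b hb).trans ((Nat.sub_le _ _).trans (hM j0))
  have hσcard : ∀ b < B, σ b ≤ s b := by
    intro b hb
    rcases Nat.lt_or_ge (b + 1) B with h | h
    · have h1 := h2 b (by omega)
      have h2 := hσM b hb
      omega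
    · have h1 : b = B - 1 := by omega
      rw [h1, hσlast]
      exact Nat.zero_le _
  obtain ⟨t, i, hti, hrow⟩ := core2_finset m S (M := M) (B := B) (A := A) (A1 := A1) hM1 hB hA hM
    (fun b => s b - σ b) (by
      intro b hb
      have hj := hM j0
      have e1 := hσ0 b (by omega)
      have e2 := hσ0 (b + 1) (by omega)
      have e3 := h1 b hb
      rw [e1, e2, e3]
      omega) (by
      intro b hb
      have e1 := h2 b (by omega)
      have e2 := hσmono b hb
      have e3 := hσcard (b + 1) (by omega)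
      omega) (by
      have e1 := h2 (B - 2) (by omega)
      have e2 := hσM (B - 2) (by omega)
      have e3 : B - 2 + 1 = B - 1 := by omega
      rw [e3] at e1
      rw [hσlast]
      omega) (by
      have e1 : ∑ b ∈ Finset.range B, (s b - σ b) + ∑ b ∈ Finset.range B, σ b =
          ∑ b ∈ Finset.range B, s b := by
        rw [← Finset.sum_add_distrib]
        apply Finset.sum_congr rfl
        intro b hb
        exact Nat.sub_add_cancel (hσcard b (Finset.mem_range.mp hb))
      rw [hσsum] at e1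
      omega)
  refine ⟨fun j => if j ∈ S then t j else if j = j0 then B - 2 else 0,
    fun j => if j ∈ S then i j else if j = j0 then B - 2 else 0, ?_, ?_⟩
  · intro j
    beta_reduce
    split_ifs with h1 h2
    · exact hti j h1
    · omega
    · omega
  · intro b hb
    have h1 : ∑ j ∈ insert j0 S, (m j - rk (if j ∈ S then t j else if j = j0 then B - 2 else 0)
        (if j ∈ S then i j else if j = j0 then B - 2 else 0) b) ≤
        ∑ j, (m j - rk (if j ∈ S then t j else if j = j0 then B - 2 else 0)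
        (if j ∈ S then i j else if j = j0 then B - 2 else 0) b) :=
      Finset.sum_le_sum_of_subset (Finset.subset_univ _)
    refine le_trans ?_ h1
    rw [Finset.sum_insert hj0, if_neg hj0, if_neg hj0, if_pos rfl]
    have h2 : ∑ j ∈ S, (m j - rk (if j ∈ S then t j else if j = j0 then B - 2 else 0)
        (if j ∈ S then i j else if j = j0 then B - 2 else 0) b) =
        ∑ j ∈ S, (m j - rk (t j) (i j) b) := by
      apply Finset.sum_congr rfl
      intro j hj
      rw [if_pos hj, if_pos hj]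
    rw [h2, hrow b hb]
    have h3 := hσle b hb
    have h4 := hσcard b hb
    omega

end Pool.Agent.Lib.MP_6b2d39_ag.Rel
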